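import Mathlib

/-!
# A component of a tube preimage on which the function is unbounded
-/

open Complex Filter Topology Set

namespace WW47.FS

/-- the set where `N` takes values in the half tube -/
def Om (N : ℂ → ℂ) (s0 c : ℝ) : Set ℂ := {t | |(N t).im| < s0 ∧ (N t).re < c}

lemma isOpen_Om {N : ℂ → ℂ} (hN : Continuous N) (s0 c : ℝ) : IsOpen (Om N s0 c) := by
  have h1 : Continuous fun t => |(N t).im| := (continuous_im.comp hN).abs
  exact (isOpen_lt h1 continuous_const).inter (isOpen_lt (continuous_re.comp hN) continuous_const)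

lemma closure_inter {N : ℂ → ℂ} (hN : Continuous N) {s0 c : ℝ} {t0 x : ℂ}
    (hx : x ∈ closure (connectedComponentIn (Om N s0 c) t0)) (hxU : x ∈ Om N s0 c) :
    x ∈ connectedComponentIn (Om N s0 c) t0 := by
  have h1 : IsOpen (connectedComponentIn (Om N s0 c) x) := (isOpen_Om hN s0 c).connectedComponentIn
  have h2 : x ∈ connectedComponentIn (Om N s0 c) x := mem_connectedComponentIn hxU
  obtain ⟨y, hy1, hy2⟩ := mem_closure_iff.1 hx _ h1 h2
  rw [connectedComponentIn_eq hy2, ← connectedComponentIn_eq hy1]
  exact h2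

/-- On the component of the half tube preimage the real part is unbounded below. -/
theorem unbounded {N : ℂ → ℂ} (hN : Differentiable ℂ N) {s0 c : ℝ} (hs : 0 < s0) {t0 t1 : ℂ}
    (h0 : (N t0).im = 0) (h0' : (N t0).re < c) (h1 : c < (N t1).re) (K : ℝ) :
    ∃ t ∈ connectedComponentIn (Om N s0 c) t0, (N t).re < -K := by
  by_contra hcon
  push Not at hcon
  have hNc : Continuous N := hN.continuous
  set U := connectedComponentIn (Om N s0 c) t0 with hU
  have hUo : IsOpen U := (isOpen_Om hNc s0 c).connectedComponentIn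
  have ht0Om : t0 ∈ Om N s0 c := by
    refine ⟨?_, h0'⟩
    rw [h0, abs_zero]
    exact hs
  have ht0 : t0 ∈ U := mem_connectedComponentIn ht0Om
  have hsub : U ⊆ Om N s0 c := connectedComponentIn_subset _ _
  set μ : ℝ := Real.pi / (2 * s0) with hμ
  have hμ0 : 0 < μ := by positivity
  set E : ℂ → ℂ := fun t => exp (-(μ * N t)) with hE
  have hEd : Differentiable ℂ E := by
    intro t
    exact (((hN t).const_mul (μ : ℂ)).neg).cexp
  have hEn : ∀ t, ‖E t‖ = Real.exp (-(μ * (N t).re)) := by
    intro t
    rw [hE]
    simp only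
    rw [norm_exp]
    congr 1
    simp
  have hEre : ∀ t, (E t).re = Real.exp (-(μ * (N t).re)) * Real.cos (μ * (N t).im) := by
    intro t
    rw [hE]
    simp only
    rw [exp_re]
    congr 1
    · congr 1
      simp
    · rw [← Real.cos_neg (μ * (N t).im)]
      congr 1
      simp
  set ρ : ℝ := Real.exp (-(μ * c)) with hρ
  -- a disc around `t1` outside
  obtain ⟨r, hr, hball⟩ : ∃ r > 0, ∀ t ∈ Metric.ball t1 r, c < (N t).re := by
    have : IsOpen {t : ℂ | c < (N t).re} := isOpen_lt continuous_const (continuous_re.comp hNc)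
    obtain ⟨r, hr, hsub'⟩ := Metric.isOpen_iff.1 this t1 h1
    exact ⟨r, hr, fun t ht => hsub' ht⟩
  have hfar : ∀ t ∈ closure U, r ≤ ‖t - t1‖ := by
    intro t ht
    have hcl : IsClosed {t : ℂ | r ≤ ‖t - t1‖} :=
      isClosed_le continuous_const ((continuous_id.sub continuous_const).norm)
    refine closure_minimal (fun y hy => ?_) hcl ht
    by_contra hlt
    have h2 : ‖y - t1‖ < r := not_le.1 hlt
    have h3 := hball y (by rw [Metric.mem_ball, dist_eq_norm]; exact h2)
    have h4 := (hsub hy).2
    linarith
  have hclK : ∀ t ∈ closure U, ‖E t‖ ≤ Real.exp (μ * K) := by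
    intro t ht
    have hcl : IsClosed {t : ℂ | ‖E t‖ ≤ Real.exp (μ * K)} :=
      isClosed_le hEd.continuous.norm continuous_const
    refine closure_minimal (fun y hy => ?_) hcl ht
    show ‖E y‖ ≤ Real.exp (μ * K)
    rw [hEn]
    refine Real.exp_le_exp.2 ?_
    have := hcon y hy
    nlinarith
  -- on the boundary
  have hbd : ∀ t ∈ closure U, t ∉ Om N s0 c → (E t).re ≤ ρ := by
    intro t ht htO
    have hcl : IsClosed {t : ℂ | |(N t).im| ≤ s0 ∧ (N t).re ≤ c} := by
      have e1 : Continuous fun t => |(N t).im| := (continuous_im.comp hNc).abs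
      exact (isClosed_le e1 continuous_const).inter
        (isClosed_le (continuous_re.comp hNc) continuous_const)
    have hss : U ⊆ {t : ℂ | |(N t).im| ≤ s0 ∧ (N t).re ≤ c} :=
      fun y hy => ⟨(hsub hy).1.le, (hsub hy).2.le⟩
    obtain ⟨h3, h4⟩ := closure_minimal hss hcl ht
    rcases h3.lt_or_eq with h5 | h5
    · -- then `re = c`
      have h6 : (N t).re = c := by
        by_contra hne
        exact htO ⟨h5, lt_of_le_of_ne h4 hne⟩
      rw [hEre, h6]
      calc Real.exp (-(μ * c)) * Real.cos (μ * (N t).im) ≤ Real.exp (-(μ * c)) * 1 := by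
            gcongr
            exact Real.cos_le_one _
        _ = ρ := mul_one _
    · have h6 : Real.cos (μ * (N t).im) = 0 := by
        rw [← Real.cos_abs, abs_mul, h5, abs_of_pos hμ0, hμ]
        have : Real.pi / (2 * s0) * s0 = Real.pi / 2 := by field_simp
        rw [this, Real.cos_pi_div_two]
      rw [hEre, h6, mul_zero]
      exact (Real.exp_pos _).le
  have hE0 : ρ < (E t0).re := by
    rw [hEre, h0, mul_zero, Real.cos_zero, mul_one]
    refine Real.exp_lt_exp.2 ?_
    have := mul_lt_mul_of_pos_left h0' hμ0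
    linarith
  -- the main estimate
  have key : ∀ n : ℕ, Real.exp (n * (E t0).re) * (r / ‖t0 - t1‖) ≤ Real.exp (n * ρ) := by
    intro n
    set f : ℂ → ℂ := fun t => exp (n * E t) * (r / (t - t1)) with hf
    have hfn : ∀ t, ‖f t‖ = Real.exp (n * (E t).re) * (r / ‖t - t1‖) := by
      intro t
      rw [hf]
      simp only
      rw [norm_mul, norm_exp, norm_div, norm_real, Real.norm_eq_abs, abs_of_pos hr]
      congr 2
      simp
    rw [← hfn]
    set R : ℝ := ‖t1‖ + ‖t0‖ + 1 + r * Real.exp (n * Real.exp (μ * K)) with hR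
    have hRpos : 0 < R := by positivity
    set V := U ∩ Metric.ball (0 : ℂ) R with hV
    have hVsub : closure V ⊆ closure U := closure_mono inter_subset_left
    have hVo : IsOpen V := hUo.inter Metric.isOpen_ball
    have hVb : Bornology.IsBounded V := Metric.isBounded_ball.subset inter_subset_right
    have hne : ∀ t ∈ closure V, t - t1 ≠ 0 := by
      intro t ht h2
      have h3 := hfar t (hVsub ht)
      rw [h2, norm_zero] at h3
      linarith
    have hfd : ∀ t, t - t1 ≠ 0 → DifferentiableAt ℂ f t := by
      intro t ht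
      have e1 : DifferentiableAt ℂ (fun t => exp (n * E t)) t := ((hEd t).const_mul (n : ℂ)).cexp
      have e2 : DifferentiableAt ℂ (fun t : ℂ => (r : ℂ) / (t - t1)) t :=
        (differentiableAt_const _).div (differentiableAt_id.sub_const t1) ht
      exact e1.mul e2
    have hdc : DiffContOnCl ℂ f V := by
      refine ⟨fun t ht => (hfd t (hne t (subset_closure ht))).differentiableWithinAt, fun t ht => ?_⟩
      exact (hfd t (hne t ht)).continuousAt.continuousWithinAt
    refine Complex.norm_le_of_forall_mem_frontier_norm_le hVb hdc (fun t ht => ?_)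
      (subset_closure ⟨ht0, ?_⟩)
    · have htcl : t ∈ closure V := frontier_subset_closure ht
      have htcU : t ∈ closure U := hVsub htcl
      have hr1 : r / ‖t - t1‖ ≤ 1 := by
        have h2 := hfar t htcU
        rw [div_le_one (lt_of_lt_of_le hr h2)]
        exact h2
      have hr0 : 0 ≤ r / ‖t - t1‖ := by positivity
      rw [hfn]
      by_cases htO : t ∈ Om N s0 c
      · -- then `t ∈ U`, hence outside the ball
        have htU : t ∈ U := closure_inter hNc htcU htO
        have hnotV : t ∉ V := by
          intro h2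
          rw [frontier, hVo.interior_eq] at ht
          exact ht.2 h2
        have hbig : R ≤ ‖t‖ := by
          by_contra hlt
          exact hnotV ⟨htU, by rw [Metric.mem_ball, dist_zero_right]; exact not_le.1 hlt⟩
        have h2 : r * Real.exp (n * Real.exp (μ * K)) ≤ ‖t - t1‖ := by
          have h3 := norm_sub_norm_le t t1
          have h4 : 0 ≤ ‖t0‖ := norm_nonneg _
          linarith
        have h3 : (E t).re ≤ Real.exp (μ * K) :=
          ((Complex.re_le_norm _).trans (hclK t htcU))
        have h4 : 0 < r * Real.exp (n * Real.exp (μ * K)) := by positivity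
        have h5 : r / ‖t - t1‖ ≤ r / (r * Real.exp (n * Real.exp (μ * K))) := by gcongr
        calc Real.exp (n * (E t).re) * (r / ‖t - t1‖)
            ≤ Real.exp (n * Real.exp (μ * K)) * (r / (r * Real.exp (n * Real.exp (μ * K)))) := by
              gcongr
          _ = 1 := by
              have := (Real.exp_pos (n * Real.exp (μ * K))).ne'
              field_simp
          _ ≤ Real.exp (n * ρ) := Real.one_le_exp (by positivity)
      · have h2 := hbd t htcU htO
        calc Real.exp (n * (E t).re) * (r / ‖t - t1‖) ≤ Real.exp (n * ρ) * 1 := by gcongr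
          _ = Real.exp (n * ρ) := mul_one _
    · rw [Metric.mem_ball, dist_zero_right, hR]
      have h2 : 0 ≤ ‖t1‖ := norm_nonneg _
      have h3 : 0 < r * Real.exp (n * Real.exp (μ * K)) := by positivity
      linarith
  -- contradiction
  have hd : 0 < ‖t0 - t1‖ := lt_of_lt_of_le hr (hfar t0 (subset_closure ht0))
  obtain ⟨n, hn⟩ := exists_nat_gt (‖t0 - t1‖ / r / ((E t0).re - ρ))
  have hpos : 0 < (E t0).re - ρ := by linarith
  rw [div_lt_iff₀ hpos] at hn
  have h2 := key n
  have h3 : Real.exp (n * (E t0).re) = Real.exp (n * ρ) * Real.exp (n * ((E t0).re - ρ)) := by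
    rw [← Real.exp_add]
    congr 1
    ring
  rw [h3, mul_assoc] at h2
  have h4 : Real.exp (n * ((E t0).re - ρ)) * (r / ‖t0 - t1‖) ≤ 1 := by
    have h5 := Real.exp_pos (n * ρ)
    by_contra hgt
    push Not at hgt
    have := mul_lt_mul_of_pos_left hgt h5
    linarith
  rw [mul_div_assoc', div_le_one hd] at h4
  have h5 := Real.add_one_le_exp (n * ((E t0).re - ρ))
  have h6 : ‖t0 - t1‖ < n * ((E t0).re - ρ) * r := by
    have : ‖t0 - t1‖ / r * r = ‖t0 - t1‖ := by field_simp
    nlinarith
  nlinarith

end WW47.FS
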