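import Pool.Agent.WW47.FS.Fin

/-!
# Conclusion: the flow is steady, and at rest without vorticity
-/

open Complex Set Filter Topology

namespace WW47.FS

variable {g κ γ a b : ℝ} {η ψ : ℝ → ℝ → ℝ} {Φ : ℝ → ℂ → ℝ} {q : ℝ → ℝ → ℝ} {p : ℝ → ℝ}
variable {Λ : Finset ℝ}

lemma surf_at (hw : WaterWave g κ γ a b η ψ Φ q p) {t : ℝ} (ht : t ∈ Ioo a b) (x : ℝ) :
    HasDerivAt (surf η t) (1 + etax η t x * I) x := by
  unfold surf
  exact (hasDerivAt_id x).ofReal_comp.add (((etax_at hw ht x).ofReal_comp).mul_const I)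

lemma psi_at (hw : WaterWave g κ γ a b η ψ Φ q p) {t : ℝ} (ht : t ∈ Ioo a b) (x : ℝ) :
    HasDerivAt (ψ t) (px Φ t (surf η t x) + etax η t x * py Φ t (surf η t x)) x := by
  have h1 : ψ t = fun y => Φ t (surf η t y) := funext fun y => hw.trace t ht y
  have h2 := (hasFDerivAt_slice hw.regΦ ht (surf η t x))
  have h3 := h2.comp_hasDerivAt x (surf_at hw ht x)
  rw [h1]
  refine h3.congr_deriv ?_
  rw [← h2.fderiv, map_add]
  have h4 : (etax η t x : ℂ) * I = (etax η t x) • I := by rw [real_smul]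
  rw [h4, map_smul, smul_eq_mul]
  rfl

lemma Wt_parts (hw : WaterWave g κ γ a b η ψ Φ q p) {t : ℝ} (ht : t ∈ Ioo a b) (z : ℂ) :
    (Wt Φ (t, z)).re = px Φ t z ∧ (Wt Φ (t, z)).im = -py Φ t z := by
  rw [← vel_eq hw.regΦ ht]
  unfold vel px py
  constructor <;> simp

/-- closure of the fluid -/
lemma zero_surf {f : ℂ → ℂ} (hf : Continuous f) {t : ℝ}
    (h : ∀ z ∈ Below (η t), f z = 0) (x : ℝ) : f (surf η t x) = 0 := by
  have h1 : Tendsto (fun s : ℝ => surf η t x - s * I) (𝓝[>] 0) (𝓝 (surf η t x)) := by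
    have h2 : Continuous fun s : ℝ => surf η t x - s * I := by fun_prop
    have h3 := h2.tendsto 0
    simp only [ofReal_zero, zero_mul, sub_zero] at h3
    exact h3.mono_left nhdsWithin_le_nhds
  have hc := (hf.tendsto (surf η t x)).comp h1
  refine tendsto_nhds_unique hc (Tendsto.congr' ?_ tendsto_const_nhds)
  filter_upwards [self_mem_nhdsWithin] with s hs
  have hs' : 0 < s := hs
  refine (h _ ?_).symm
  show (surf η t x - s * I).im < η t (surf η t x - s * I).re
  unfold surf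
  simp
  exact hs'

/-- The velocities at two times with the same surface and the same normal velocity agree. -/
theorem vel_const (hw : WaterWave g κ γ a b η ψ Φ q p) {t s : ℝ} (ht : t ∈ Ioo a b)
    (hs : s ∈ Ioo a b) (hη : ∀ x, η t x = η s x) (hDN : ∀ x, DN Φ η t x = DN Φ η s x) :
    ∀ z ∈ Below (η t), Wt Φ (t, z) - Wt Φ (s, z) = 0 := by
  have hηf : η t = η s := funext hη
  refine neumann (h' := etax η t) (fun z => by rw [Wt_per hw ht, Wt_per hw hs])
    ((Wt_cont hw.regΦ ht).sub (Wt_cont hw.regΦ hs)) (hw.perη t ht) (etax_at hw ht)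
    (etax_cont hw ht) (fun z hz => (Wt_hol hw ht hz).sub (Wt_hol hw hs (by rw [← hηf]; exact hz)))
    ?_ ?_
  · intro ε hε
    obtain ⟨Y1, h1⟩ := Wt_decay0 hw ht (ε / 2) (by positivity)
    obtain ⟨Y2, h2⟩ := Wt_decay0 hw hs (ε / 2) (by positivity)
    refine ⟨min Y1 Y2, fun z hz => ?_⟩
    have e1 := h1 z (hz.trans_le (min_le_left _ _))
    have e2 := h2 z (hz.trans_le (min_le_right _ _))
    exact (norm_sub_le _ _).trans (by linarith)
  · intro x
    have e1 : (x : ℂ) + (η t x : ℂ) * I = surf η t x := rfl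
    have e2 : surf η t x = surf η s x := by unfold surf; rw [hη x]
    have e3 : etax η t x = etax η s x := by unfold etax; rw [hηf]
    rw [e1]
    obtain ⟨a1, a2⟩ := Wt_parts hw ht (surf η t x)
    obtain ⟨b1, b2⟩ := Wt_parts hw hs (surf η t x)
    have h1 := hDN x
    unfold DN at h1
    rw [← e2, ← e3] at h1
    have e4 : ((1 + I * (etax η t x : ℂ)) * (Wt Φ (t, surf η t x) - Wt Φ (s, surf η t x))).im =
        (Wt Φ (t, surf η t x)).im - (Wt Φ (s, surf η t x)).im +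
          etax η t x * ((Wt Φ (t, surf η t x)).re - (Wt Φ (s, surf η t x)).re) := by
      simp
    rw [e4, a1, a2, b1, b2]
    linarith

/-- no normal velocity: no velocity -/
theorem vel_zero (hw : WaterWave g κ γ a b η ψ Φ q p) {t : ℝ} (ht : t ∈ Ioo a b)
    (hDN : ∀ x, DN Φ η t x = 0) : ∀ z ∈ Below (η t), Wt Φ (t, z) = 0 := by
  refine neumann (f := fun z => Wt Φ (t, z)) (h' := etax η t) (Wt_per hw ht) (Wt_cont hw.regΦ ht)
    (hw.perη t ht) (etax_at hw ht) (etax_cont hw ht) (fun z hz => Wt_hol hw ht hz)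
    (Wt_decay0 hw ht) ?_
  intro x
  have e1 : (x : ℂ) + (η t x : ℂ) * I = surf η t x := rfl
  rw [e1]
  obtain ⟨a1, a2⟩ := Wt_parts hw ht (surf η t x)
  have h1 := hDN x
  unfold DN at h1
  have e4 : ((1 + I * (etax η t x : ℂ)) * Wt Φ (t, surf η t x)).im =
      (Wt Φ (t, surf η t x)).im + etax η t x * (Wt Φ (t, surf η t x)).re := by
    simp
  rw [e4, a1, a2]
  linarith

/-- second derivative test for the capillary term -/
lemma capillary_max {h h1 : ℝ → ℝ} (hd : ∀ x, HasDerivAt h (h1 x) x) {x0 : ℝ}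
    (hmax : ∀ x, h x ≤ h x0) : deriv (fun y => h1 y / √(1 + h1 y ^ 2)) x0 ≤ 0 := by
  by_contra hcon
  push Not at hcon
  have h0 : h1 x0 = 0 := by
    have h2 : IsLocalMax h x0 := Eventually.of_forall hmax
    exact h2.hasDerivAt_eq_zero (hd x0)
  set Gf : ℝ → ℝ := fun y => h1 y / √(1 + h1 y ^ 2) with hG
  have hGd : HasDerivAt Gf (deriv Gf x0) x0 :=
    (differentiableAt_of_deriv_ne_zero hcon.ne').hasDerivAt
  have hG0 : Gf x0 = 0 := by rw [hG]; simp [h0]
  -- positive to the right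
  have hev : ∀ᶠ y in 𝓝[>] x0, 0 < Gf y := by
    have h2 := hGd.hasDerivWithinAt (s := Ioi x0)
    rw [hasDerivWithinAt_iff_tendsto_slope' (by simp : x0 ∉ Ioi x0)] at h2
    filter_upwards [h2.eventually (lt_mem_nhds hcon), self_mem_nhdsWithin] with y hy hy'
    have hy'' : x0 < y := hy'
    rw [slope_def_field, hG0, sub_zero] at hy
    have h3 : 0 < y - x0 := by linarith
    by_contra hneg
    push Not at hneg
    have := div_nonpos_of_nonpos_of_nonneg hneg h3.le
    linarith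
  obtain ⟨δ, hδ, hδ2⟩ := mem_nhdsGT_iff_exists_Ioo_subset.1 hev
  have hδ' : x0 < δ := hδ
  have hmono : StrictMonoOn h (Icc x0 ((x0 + δ) / 2)) := by
    refine strictMonoOn_of_deriv_pos (convex_Icc _ _)
      (fun y _ => (hd y).continuousAt.continuousWithinAt) fun y hy => ?_
    rw [interior_Icc] at hy
    rw [(hd y).deriv]
    have h2 : 0 < Gf y := hδ2 ⟨hy.1, by linarith [hy.2]⟩
    have h3 : 0 < √(1 + h1 y ^ 2) := Real.sqrt_pos.2 (by positivity)
    rw [hG] at h2
    simp only at h2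
    by_contra hneg
    push Not at hneg
    have := div_nonpos_of_nonpos_of_nonneg hneg h3.le
    linarith
  have h2 := hmono (left_mem_Icc.2 (by linarith)) (right_mem_Icc.2 (by linarith))
    (by linarith : x0 < (x0 + δ) / 2)
  have h3 := hmax ((x0 + δ) / 2)
  linarith

/-- Without vorticity: a motionless surface with zero velocity is flat. -/
theorem flat_of_zero (hg : 0 < g) (hκ : 0 ≤ κ) (hw : WaterWave g κ 0 a b η ψ Φ q p)
    (hW : ∀ t ∈ Ioo a b, ∀ z ∈ Below (η t), Wt Φ (t, z) = 0) {t : ℝ} (ht : t ∈ Ioo a b) :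
    ∀ x, η t x = η t 0 := by
  have hsurf : ∀ s ∈ Ioo a b, ∀ x, px Φ s (surf η s x) = 0 ∧ py Φ s (surf η s x) = 0 := by
    intro s hs x
    have h1 := zero_surf (Wt_cont hw.regΦ hs) (hW s hs) x
    obtain ⟨a1, a2⟩ := Wt_parts hw hs (surf η s x)
    rw [h1] at a1 a2
    simp only [zero_re, zero_im] at a1 a2
    exact ⟨a1.symm, by linarith⟩
  have hψx : ∀ s ∈ Ioo a b, ∀ x, deriv (ψ s) x = 0 := by
    intro s hs x
    rw [(psi_at hw hs x).deriv, (hsurf s hs x).1, (hsurf s hs x).2]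
    ring
  have hψ : ∀ s ∈ Ioo a b, ∀ x, ψ s x = ψ s 0 := by
    intro s hs x
    exact is_const_of_deriv_eq_zero (fun y => (psi_at hw hs y).differentiableAt) (hψx s hs) x 0
  have hDN : ∀ x, DN Φ η t x = 0 := by
    intro x
    unfold DN
    rw [(hsurf t ht x).1, (hsurf t ht x).2]
    ring
  -- the Bernoulli equation
  set m : ℝ := deriv (fun s => ψ s 0) t with hm
  have hB : ∀ x, m = -g * η t x + κ * deriv (fun y => etax η t y / √(1 + etax η t y ^ 2)) x
      + p t := by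
    intro x
    have h1 := hw.dyn t ht x
    rw [hψx t ht x, hDN x] at h1
    have h2 : deriv (fun s => ψ s x) t = m := by
      apply Filter.EventuallyEq.deriv_eq
      filter_upwards [isOpen_Ioo.mem_nhds ht] with s hs using hψ s hs x
    rw [h2] at h1
    rw [h1]
    ring
  -- maximum and minimum
  have hper : Function.Periodic (η t) (2 * Real.pi) := hw.perη t ht
  have hc := eta_cont hw ht
  obtain ⟨xM, -, hxM⟩ := (isCompact_Icc (a := (0 : ℝ)) (b := 2 * Real.pi)).exists_isMaxOn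
    ⟨0, by constructor <;> positivity⟩ hc.continuousOn
  obtain ⟨xm, -, hxm⟩ := (isCompact_Icc (a := (0 : ℝ)) (b := 2 * Real.pi)).exists_isMinOn
    ⟨0, by constructor <;> positivity⟩ hc.continuousOn
  have hM : ∀ x, η t x ≤ η t xM := by
    intro x
    obtain ⟨y, hy, hxy⟩ := real_reduce (hw.perη t ht) x
    rw [hxy]
    exact hxM hy
  have hmn : ∀ x, η t xm ≤ η t x := by
    intro x
    obtain ⟨y, hy, hxy⟩ := real_reduce (hw.perη t ht) x
    rw [hxy]
    exact hxm hy
  have h1 := capillary_max (fun x => etax_at hw ht x) hM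
  have h2 : 0 ≤ deriv (fun y => etax η t y / √(1 + etax η t y ^ 2)) xm := by
    have h3 := capillary_max (h := fun x => -η t x) (h1 := fun x => -etax η t x) (x0 := xm)
      (fun x => (etax_at hw ht x).neg) (fun x => by linarith [hmn x])
    have h4 : (fun y => -etax η t y / √(1 + (-etax η t y) ^ 2)) =
        fun y => -(etax η t y / √(1 + etax η t y ^ 2)) := by
      funext y
      rw [neg_sq, neg_div]
    rw [h4, deriv.fun_neg] at h3
    linarith
  have h3 := hB xM
  have h4 := hB xm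
  have h5 : κ * deriv (fun y => etax η t y / √(1 + etax η t y ^ 2)) xM ≤ 0 :=
    mul_nonpos_of_nonneg_of_nonpos hκ h1
  have h6 : 0 ≤ κ * deriv (fun y => etax η t y / √(1 + etax η t y ^ 2)) xm := mul_nonneg hκ h2
  have h7 : g * η t xM ≤ g * η t xm := by linarith
  have h8 : η t xM ≤ η t xm := le_of_mul_le_mul_left h7 hg
  intro x
  have e1 := hM x
  have e2 := hmn x
  have e3 := hM 0
  have e4 := hmn 0
  linarith

/-- **Main theorem.** -/
theorem steady (hw : WaterWave g κ γ a b η ψ Φ q p)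
    (hη : ∀ x, ∃ A : ℝ → ℂ, ∀ t ∈ Ioo a b, (η t x : ℂ) = es Λ A t)
    (hΦ : ∃ Y : ℝ, ∀ z : ℂ, z.im < Y → ∃ A B : ℝ → ℂ, ∀ t ∈ Ioo a b,
      (px Φ t z : ℂ) = es Λ A t ∧ (py Φ t z : ℂ) = es Λ B t) :
    ∀ t ∈ Ioo a b, ∀ s ∈ Ioo a b, (∀ x, η t x = η s x) ∧ (∀ x, deriv (ψ t) x = deriv (ψ s) x) ∧
      ∀ z : ℂ, z.im < η t z.re → px Φ t z = px Φ s z ∧ py Φ t z = py Φ s z := by
  have hdeep : DeepSpec Λ a b Φ := by
    obtain ⟨Y, hY⟩ := hΦ
    refine ⟨Y, fun z hz => ?_⟩
    obtain ⟨A, B, hAB⟩ := hY z hz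
    refine ⟨fun l => A l - I * B l, fun t ht => ?_⟩
    rw [← vel_eq hw.regΦ ht]
    obtain ⟨h1, h2⟩ := hAB t ht
    have h3 : vel Φ t z = (px Φ t z : ℂ) - I * (py Φ t z : ℂ) := rfl
    rw [h3, h1, h2]
    unfold es
    rw [Finset.mul_sum, ← Finset.sum_sub_distrib]
    refine Finset.sum_congr rfl fun l _ => ?_
    ring
  have hconst := eta_const hw hdeep hη
  intro t ht s hs
  have hηts : ∀ x, η t x = η s x := fun x => hconst x t ht s hs
  have hdt : ∀ r ∈ Ioo a b, ∀ x, deriv (fun s => η s x) r = 0 := by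
    intro r hr x
    have h2 : (fun s => η s x) =ᶠ[𝓝 r] fun _ => η r x := by
      filter_upwards [isOpen_Ioo.mem_nhds hr] with u hu using hconst x u hu r hr
    rw [h2.deriv_eq]
    simp
  have hDN : ∀ x, DN Φ η t x = DN Φ η s x := by
    intro x
    have h1 := hw.kin t ht x
    have h2 := hw.kin s hs x
    rw [hdt t ht x] at h1
    rw [hdt s hs x] at h2
    have e3 : etax η t x = etax η s x := by
      unfold etax
      rw [funext hηts]
    rw [hηts x, e3] at h1
    linarith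
  have hvel := vel_const hw ht hs hηts hDN
  have hparts : ∀ z, Wt Φ (t, z) - Wt Φ (s, z) = 0 →
      px Φ t z = px Φ s z ∧ py Φ t z = py Φ s z := by
    intro z hz
    obtain ⟨a1, a2⟩ := Wt_parts hw ht z
    obtain ⟨b1, b2⟩ := Wt_parts hw hs z
    have h1 := congrArg Complex.re hz
    have h2 := congrArg Complex.im hz
    rw [sub_re, a1, b1, zero_re] at h1
    rw [sub_im, a2, b2, zero_im] at h2
    exact ⟨by linarith, by linarith⟩
  refine ⟨hηts, fun x => ?_, fun z hz => hparts z (hvel z hz)⟩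
  have h1 := zero_surf ((Wt_cont hw.regΦ ht).sub (Wt_cont hw.regΦ hs)) hvel x
  obtain ⟨h2, h3⟩ := hparts _ h1
  have e2 : surf η t x = surf η s x := by unfold surf; rw [hηts x]
  have e3 : etax η t x = etax η s x := by
    unfold etax
    rw [funext hηts]
  rw [(psi_at hw ht x).deriv, (psi_at hw hs x).deriv, h2, h3, e2, e3]

/-- without vorticity: rest -/
theorem rest0 (hg : 0 < g) (hκ : 0 ≤ κ) (hw : WaterWave g κ 0 a b η ψ Φ q p)
    (hη : ∀ x, ∃ A : ℝ → ℂ, ∀ t ∈ Ioo a b, (η t x : ℂ) = es Λ A t)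
    (hΦ : ∃ Y : ℝ, ∀ z : ℂ, z.im < Y → ∃ A B : ℝ → ℂ, ∀ t ∈ Ioo a b,
      (px Φ t z : ℂ) = es Λ A t ∧ (py Φ t z : ℂ) = es Λ B t) :
    ∃ h0 : ℝ, ∀ t ∈ Ioo a b, (∀ x, η t x = h0) ∧ (∀ x, deriv (ψ t) x = 0) ∧
      ∀ z : ℂ, z.im < h0 → px Φ t z = 0 ∧ py Φ t z = 0 := by
  have hst := steady hw hη hΦ
  have hW : ∀ t ∈ Ioo a b, ∀ z ∈ Below (η t), Wt Φ (t, z) = 0 := by
    intro t ht
    refine vel_zero hw ht fun x => ?_
    have h1 := hw.kin t ht x
    have h2 : (fun s => η s x) =ᶠ[𝓝 t] fun _ => η t x := by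
      filter_upwards [isOpen_Ioo.mem_nhds ht] with u hu using (hst u hu t ht).1 x
    rw [h2.deriv_eq] at h1
    simp at h1
    linarith
  rcases (Ioo a b).eq_empty_or_nonempty with he | ⟨t0, ht0⟩
  · refine ⟨0, fun t ht => ?_⟩
    rw [he] at ht
    exact absurd ht (notMem_empty t)
  refine ⟨η t0 0, fun t ht => ?_⟩
  have hflat : ∀ x, η t x = η t0 0 := by
    intro x
    rw [(hst t ht t0 ht0).1 x]
    exact flat_of_zero hg hκ hw hW ht0 x
  have hpar : ∀ z, Wt Φ (t, z) = 0 → px Φ t z = 0 ∧ py Φ t z = 0 := by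
    intro z hz
    obtain ⟨a1, a2⟩ := Wt_parts hw ht z
    rw [hz] at a1 a2
    simp only [zero_re, zero_im] at a1 a2
    exact ⟨a1.symm, by linarith⟩
  refine ⟨hflat, fun x => ?_, fun z hz => hpar z (hW t ht z ?_)⟩
  · obtain ⟨h1, h2⟩ := hpar _ (zero_surf (Wt_cont hw.regΦ ht) (hW t ht) x)
    rw [(psi_at hw ht x).deriv, h1, h2]
    ring
  · show z.im < η t z.re
    rw [hflat]
    exact hz

end WW47.FS
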