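import Mathlib

/-!
# Exponential sums with real frequencies, as entire functions
-/

open Complex Filter Topology

namespace WW47.FS

/-- `e^{ilt}` -/
noncomputable def er (l : ℝ) : ℂ → ℂ := fun t => exp (I * l * t)

/-- the exponential sum with frequencies in `Λ` and coefficients `c` -/
noncomputable def es (Λ : Finset ℝ) (c : ℝ → ℂ) (t : ℂ) : ℂ := ∑ l ∈ Λ, c l * exp (I * l * t)

lemma er_mul (k l : ℝ) : er k * er l = er (k + l) := by
  funext x
  simp only [er, Pi.mul_apply]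
  rw [← exp_add]
  congr 1
  push_cast
  ring

lemma er_zero : er 0 = 1 := by
  funext x; simp [er]

/-- The algebra of exponential sums. -/
noncomputable def EPA : Subalgebra ℂ (ℂ → ℂ) :=
  (Submodule.span ℂ (Set.range er)).toSubalgebra
    (by rw [← er_zero]; exact Submodule.subset_span ⟨0, rfl⟩)
    (by
      intro f g hf hg
      induction hf using Submodule.span_induction with
      | mem f hf =>
        obtain ⟨k, rfl⟩ := hf
        induction hg using Submodule.span_induction with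
        | mem g hg =>
          obtain ⟨l, rfl⟩ := hg
          rw [er_mul]; exact Submodule.subset_span ⟨_, rfl⟩
        | zero => rw [mul_zero]; exact Submodule.zero_mem _
        | add g1 g2 _ _ h1 h2 => rw [mul_add]; exact Submodule.add_mem _ h1 h2
        | smul a g1 _ h1 => rw [mul_smul_comm]; exact Submodule.smul_mem _ _ h1
      | zero => rw [zero_mul]; exact Submodule.zero_mem _
      | add f1 f2 _ _ h1 h2 => rw [add_mul]; exact Submodule.add_mem _ h1 h2
      | smul a f1 _ h1 => rw [smul_mul_assoc]; exact Submodule.smul_mem _ _ h1)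

lemma mem_EPA_iff (f : ℂ → ℂ) : f ∈ EPA ↔ f ∈ Submodule.span ℂ (Set.range er) :=
  Submodule.mem_toSubalgebra

lemma er_mem (k : ℝ) : er k ∈ EPA := by
  rw [mem_EPA_iff]; exact Submodule.subset_span ⟨k, rfl⟩

lemma es_eq_sum (Λ : Finset ℝ) (c : ℝ → ℂ) : es Λ c = ∑ l ∈ Λ, c l • er l := by
  funext x
  simp [es, er, Finset.sum_apply, smul_eq_mul]

lemma es_mem (Λ : Finset ℝ) (c : ℝ → ℂ) : es Λ c ∈ EPA := by
  rw [es_eq_sum]
  exact Subalgebra.sum_mem _ fun k _ => Subalgebra.smul_mem _ (er_mem k) _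

/-- every element is an exponential sum with nonzero coefficients -/
lemma exists_es {f : ℂ → ℂ} (hf : f ∈ EPA) :
    ∃ (Λ : Finset ℝ) (c : ℝ → ℂ), (∀ l ∈ Λ, c l ≠ 0) ∧ f = es Λ c := by
  rw [mem_EPA_iff, Finsupp.mem_span_range_iff_exists_finsupp] at hf
  obtain ⟨c, hc⟩ := hf
  refine ⟨c.support, fun l => c l, fun l hl => Finsupp.mem_support_iff.1 hl, ?_⟩
  rw [← hc, es_eq_sum, Finsupp.sum]

lemma differentiable_es (Λ : Finset ℝ) (c : ℝ → ℂ) : Differentiable ℂ (es Λ c) := by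
  unfold es
  fun_prop

lemma hasDerivAt_es (Λ : Finset ℝ) (c : ℝ → ℂ) (t : ℂ) :
    HasDerivAt (es Λ c) (es Λ (fun l => I * l * c l) t) t := by
  have h : ∀ l ∈ Λ, HasDerivAt (fun x : ℂ => c l * exp (I * l * x))
      (I * l * c l * exp (I * l * t)) t := by
    intro k _
    have h1 : HasDerivAt (fun x : ℂ => I * k * x) (I * k) t := by
      simpa using (hasDerivAt_id t).const_mul (I * (k : ℂ))
    exact ((h1.cexp).const_mul (c k)).congr_deriv (by ring)
  have := HasDerivAt.fun_sum h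
  exact this

lemma norm_exp_il (l : ℝ) (t : ℂ) : ‖exp (I * l * t)‖ = Real.exp (-(l * t.im)) := by
  rw [norm_exp]
  congr 1
  simp

/-- upper bound -/
lemma es_upper (Λ : Finset ℝ) (c : ℝ → ℂ) :
    ∃ σ K : ℝ, 0 < σ ∧ 0 < K ∧ ∀ t : ℂ, ‖es Λ c t‖ ≤ K * Real.exp (σ * |t.im|) := by
  refine ⟨1 + ∑ l ∈ Λ, |l|, 1 + ∑ l ∈ Λ, ‖c l‖, by positivity, by positivity, fun t => ?_⟩
  unfold es
  have h1 : ‖∑ l ∈ Λ, c l * exp (I * l * t)‖ ≤
      (∑ l ∈ Λ, ‖c l‖) * Real.exp ((1 + ∑ l ∈ Λ, |l|) * |t.im|) := by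
    refine (norm_sum_le _ _).trans ?_
    rw [Finset.sum_mul]
    refine Finset.sum_le_sum fun k hk => ?_
    rw [norm_mul, norm_exp_il]
    have h2 : |k| ≤ ∑ l ∈ Λ, |l| :=
      Finset.single_le_sum (f := fun l : ℝ => |l|) (fun l _ => abs_nonneg l) hk
    have h3 : -(k * t.im) ≤ (1 + ∑ l ∈ Λ, |l|) * |t.im| := by
      calc -(k * t.im) ≤ |k * t.im| := neg_le_abs _
        _ = |k| * |t.im| := abs_mul _ _
        _ ≤ _ := by
          refine mul_le_mul_of_nonneg_right ?_ (abs_nonneg _)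
          linarith
    gcongr
  refine h1.trans ?_
  refine mul_le_mul_of_nonneg_right ?_ (Real.exp_pos _).le
  linarith

/-- Dominant term as `Im t → ∞`. -/
lemma es_lower {Λ : Finset ℝ} {c : ℝ → ℂ} {m : ℝ} (hm : m ∈ Λ) (hcm : c m ≠ 0)
    (hmin : ∀ l ∈ Λ, m ≤ l) :
    ∃ Y : ℝ, ∀ t : ℂ, Y ≤ t.im → ‖c m‖ / 2 * Real.exp (-(m * t.im)) ≤ ‖es Λ c t‖ := by
  classical
  have hcm' : 0 < ‖c m‖ := norm_pos_iff.mpr hcm
  set K : ℝ := ∑ k ∈ Λ, ‖c k‖ with hK
  have hKpos : 0 < K := lt_of_lt_of_le hcm'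
    (Finset.single_le_sum (f := fun k => ‖c k‖) (fun k _ => norm_nonneg _) hm)
  -- gap
  obtain ⟨d, hd, hgap⟩ : ∃ d > 0, ∀ l ∈ Λ.erase m, m + d ≤ l := by
    rcases (Λ.erase m).eq_empty_or_nonempty with he | hne
    · refine ⟨1, one_pos, fun l hl => ?_⟩
      rw [he] at hl
      exact absurd hl (Finset.notMem_empty l)
    · refine ⟨(Λ.erase m).min' hne - m, ?_, fun l hl => ?_⟩
      · have h1 := Finset.mem_erase.1 ((Λ.erase m).min'_mem hne)
        have h2 := hmin _ h1.2
        rcases h2.lt_or_eq with h3 | h3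
        · linarith
        · exact absurd h3.symm h1.1
      · have := (Λ.erase m).min'_le l hl
        linarith
  refine ⟨max 0 (Real.log (2 * K / ‖c m‖) / d), fun t ht => ?_⟩
  have ht0 : 0 ≤ t.im := (le_max_left _ _).trans ht
  have ht1 : 2 * K / ‖c m‖ ≤ Real.exp (d * t.im) := by
    have h1 : Real.log (2 * K / ‖c m‖) / d ≤ t.im := (le_max_right _ _).trans ht
    rw [div_le_iff₀ hd] at h1
    calc 2 * K / ‖c m‖ = Real.exp (Real.log (2 * K / ‖c m‖)) := by
          rw [Real.exp_log]; positivity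
      _ ≤ _ := Real.exp_le_exp.mpr (by linarith)
  have hsplit : es Λ c t = c m * exp (I * m * t) + ∑ k ∈ Λ.erase m, c k * exp (I * k * t) := by
    unfold es
    exact (Finset.add_sum_erase _ (fun k : ℝ => c k * exp (I * k * t)) hm).symm
  have hrest : ‖∑ k ∈ Λ.erase m, c k * exp (I * k * t)‖ ≤
      K * Real.exp (-((m + d) * t.im)) := by
    calc _ ≤ ∑ k ∈ Λ.erase m, ‖c k * exp (I * k * t)‖ := norm_sum_le _ _
      _ ≤ ∑ k ∈ Λ.erase m, ‖c k‖ * Real.exp (-((m + d) * t.im)) := by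
          refine Finset.sum_le_sum fun k hk => ?_
          rw [norm_mul, norm_exp_il]
          have := hgap k hk
          gcongr
      _ = (∑ k ∈ Λ.erase m, ‖c k‖) * Real.exp (-((m + d) * t.im)) := by
          rw [Finset.sum_mul]
      _ ≤ K * Real.exp (-((m + d) * t.im)) := by
          gcongr
          exact Finset.sum_le_sum_of_subset_of_nonneg (Finset.erase_subset _ _)
            (fun _ _ _ => norm_nonneg _)
  have hmain : ‖c m * exp (I * m * t)‖ = ‖c m‖ * Real.exp (-(m * t.im)) := by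
    rw [norm_mul, norm_exp_il]
  have h3 : K * Real.exp (-((m + d) * t.im)) ≤ ‖c m‖ / 2 * Real.exp (-(m * t.im)) := by
    have h4 : Real.exp (-(m * t.im)) = Real.exp (-((m + d) * t.im)) * Real.exp (d * t.im) := by
      rw [← Real.exp_add]; ring_nf
    rw [h4]
    have h5 : K ≤ ‖c m‖ / 2 * Real.exp (d * t.im) := by
      rw [div_le_iff₀ hcm'] at ht1
      linarith
    calc K * Real.exp (-((m + d) * t.im))
        ≤ (‖c m‖ / 2 * Real.exp (d * t.im)) * Real.exp (-((m + d) * t.im)) := by gcongr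
      _ = _ := by ring
  rw [hsplit]
  have h6 := norm_sub_le_norm_add (c m * exp (I * m * t))
    (∑ k ∈ Λ.erase m, c k * exp (I * k * t))
  rw [hmain] at h6
  linarith

/-- without negative frequencies: bounded in the upper half plane -/
lemma es_bdd {Λ : Finset ℝ} {c : ℝ → ℂ} (h : ∀ l ∈ Λ, c l ≠ 0 → 0 ≤ l) (t : ℂ) (ht : 0 ≤ t.im) :
    ‖es Λ c t‖ ≤ ∑ l ∈ Λ, ‖c l‖ := by
  unfold es
  refine (norm_sum_le _ _).trans (Finset.sum_le_sum fun l hl => ?_)
  rw [norm_mul, norm_exp_il]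
  by_cases hc : c l = 0
  · simp [hc]
  · have h1 : Real.exp (-(l * t.im)) ≤ 1 := by
      rw [Real.exp_le_one_iff]
      have := mul_nonneg (h l hl hc) ht
      linarith
    calc ‖c l‖ * Real.exp (-(l * t.im)) ≤ ‖c l‖ * 1 := by gcongr
      _ = ‖c l‖ := mul_one _

lemma tendsto_double_exp {A C s α β : ℝ} (hα : 0 < α) (hβ : 0 < β) :
    Tendsto (fun y : ℝ => C * Real.exp (A * y + s - α * Real.exp (β * y))) atTop (𝓝 0) := by
  have h1 : ∀ᶠ y : ℝ in atTop, A * y + s - α * Real.exp (β * y) ≤ -y + s := by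
    filter_upwards [eventually_ge_atTop ((|A| + 1) / (α * β ^ 2 / 4)), eventually_ge_atTop 0]
      with y hy hy0
    have h2 : (β * y / 2) ^ 2 ≤ Real.exp (β * y) := by
      have h3 := Real.add_one_le_exp (β * y / 2)
      have h4 : Real.exp (β * y) = Real.exp (β * y / 2) ^ 2 := by
        rw [← Real.exp_nat_mul]
        congr 1
        push_cast
        ring
      rw [h4]
      have h5 : 0 ≤ β * y / 2 := by positivity
      exact pow_le_pow_left₀ h5 (by linarith) 2
    rw [div_le_iff₀ (by positivity)] at hy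
    have h6 : (|A| + 1) * y ≤ y * (α * β ^ 2 / 4) * y := mul_le_mul_of_nonneg_right hy hy0
    have h7 : α * (β * y / 2) ^ 2 ≤ α * Real.exp (β * y) := by gcongr
    have h8 : A * y ≤ |A| * y := mul_le_mul_of_nonneg_right (le_abs_self A) hy0
    nlinarith
  have h2 : Tendsto (fun y : ℝ => |C| * Real.exp (-y + s)) atTop (𝓝 (|C| * 0)) := by
    refine Tendsto.const_mul _ (Real.tendsto_exp_atBot.comp ?_)
    exact tendsto_atBot_add_const_right _ _ tendsto_neg_atTop_atBot
  rw [mul_zero] at h2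
  refine squeeze_zero_norm' ?_ h2
  filter_upwards [h1] with y hy
  rw [norm_mul, Real.norm_eq_abs, Real.norm_eq_abs, abs_of_pos (Real.exp_pos _)]
  gcongr

/-- The growth contradiction. -/
theorem growth {n p : ℂ → ℂ} (hn : n ∈ EPA) (hp : p ∈ EPA) {s0 A C : ℝ}
    (h : ∀ K : ℝ, ∃ t : ℂ, 0 ≤ t.im ∧ (n t).re ≤ -K ∧ |(n t).im| ≤ s0 ∧
      ‖p t‖ ≤ C * Real.exp (A * t.im + (n t).re)) : ∀ z, p z = 0 := by
  classical
  obtain ⟨Λ, c, hc, rfl⟩ := exists_es hn
  obtain ⟨Λ', c', hc', rfl⟩ := exists_es hp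
  choose t ht0 htre htim htp using fun j : ℕ => h j
  obtain ⟨σ, K, hσ, hK, hup⟩ := es_upper Λ c
  -- Im t_j → ∞
  have hbig : ∀ j : ℕ, (j : ℝ) ≤ K * Real.exp (σ * (t j).im) := by
    intro j
    have h1 := hup (t j)
    rw [abs_of_nonneg (ht0 j)] at h1
    have h2 := (Complex.abs_re_le_norm (es Λ c (t j))).trans h1
    have h3 := neg_le_abs (es Λ c (t j)).re
    linarith [htre j]
  have htop : Tendsto (fun j => (t j).im) atTop atTop := by
    have h1 : Tendsto (fun j : ℕ => (j : ℝ) / K) atTop atTop :=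
      tendsto_natCast_atTop_atTop.atTop_div_const hK
    have h2 : Tendsto (fun j : ℕ => Real.log ((j : ℝ) / K)) atTop atTop :=
      Real.tendsto_log_atTop.comp h1
    have h3 : Tendsto (fun j : ℕ => Real.log ((j : ℝ) / K) / σ) atTop atTop :=
      h2.atTop_div_const hσ
    refine tendsto_atTop_mono' _ ?_ h3
    filter_upwards [eventually_gt_atTop 0] with j hj
    have hj' : (0 : ℝ) < j := by exact_mod_cast hj
    rw [div_le_iff₀ hσ]
    have h4 : (j : ℝ) / K ≤ Real.exp (σ * (t j).im) := by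
      rw [div_le_iff₀ hK]
      linarith [hbig j]
    have h5 := Real.log_le_log (by positivity) h4
    rw [Real.log_exp] at h5
    linarith
  rcases Λ'.eq_empty_or_nonempty with he' | hne'
  · intro z
    rw [he']
    simp [es]
  exfalso
  have hne : Λ.Nonempty := by
    by_contra hcon
    rw [Finset.not_nonempty_iff_eq_empty] at hcon
    have h1 := htre 1
    rw [hcon] at h1
    simp [es] at h1
    linarith
  obtain ⟨m, hm, hmmin⟩ : ∃ m ∈ Λ, ∀ l ∈ Λ, m ≤ l :=
    ⟨Λ.min' hne, Λ.min'_mem hne, fun l hl => Λ.min'_le l hl⟩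
  obtain ⟨m', hm', hmmin'⟩ : ∃ m ∈ Λ', ∀ l ∈ Λ', m ≤ l :=
    ⟨Λ'.min' hne', Λ'.min'_mem hne', fun l hl => Λ'.min'_le l hl⟩
  have hmneg : m < 0 := by
    by_contra hcon
    push Not at hcon
    obtain ⟨j, hj⟩ := exists_nat_gt (∑ l ∈ Λ, ‖c l‖)
    have h1 := es_bdd (c := c) (fun l hl _ => hcon.trans (hmmin l hl)) (t j) (ht0 j)
    have h2 := (Complex.abs_re_le_norm (es Λ c (t j))).trans h1
    have h3 := neg_le_abs (es Λ c (t j)).re
    linarith [htre j]
  obtain ⟨Y, hY⟩ := es_lower hm (hc m hm) hmmin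
  obtain ⟨Y', hY'⟩ := es_lower hm' (hc' m' hm') hmmin'
  have hcm : 0 < ‖c m‖ := norm_pos_iff.2 (hc m hm)
  have hcm' : 0 < ‖c' m'‖ := norm_pos_iff.2 (hc' m' hm')
  have hlim := (tendsto_double_exp (A := A + m') (C := C) (s := s0) (α := ‖c m‖ / 2) (β := -m)
    (by positivity) (by linarith)).comp htop
  have hCpos : 0 ≤ C := by
    have h1 := (norm_nonneg _).trans (htp 0)
    by_contra hneg
    push Not at hneg
    have := mul_neg_of_neg_of_pos hneg (Real.exp_pos (A * (t 0).im + (es Λ c (t 0)).re))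
    linarith
  have hev : ∀ᶠ j in atTop, ‖c' m'‖ / 2 ≤
      C * Real.exp ((A + m') * (t j).im + s0 - ‖c m‖ / 2 * Real.exp (-m * (t j).im)) := by
    filter_upwards [htop.eventually_ge_atTop Y, htop.eventually_ge_atTop Y'] with j h1 h2
    have h3 := hY (t j) h1
    have h4 := hY' (t j) h2
    have h5 : ‖es Λ c (t j)‖ ≤ -(es Λ c (t j)).re + s0 := by
      have h6 := Complex.norm_le_abs_re_add_abs_im (es Λ c (t j))
      have h7 : |(es Λ c (t j)).re| = -(es Λ c (t j)).re := by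
        rw [abs_of_nonpos]
        have := htre j
        have h8 : (0 : ℝ) ≤ j := Nat.cast_nonneg j
        linarith
      rw [h7] at h6
      linarith [htim j]
    have h6 : (es Λ c (t j)).re ≤ s0 - ‖c m‖ / 2 * Real.exp (-m * (t j).im) := by
      have : -m * (t j).im = -(m * (t j).im) := by ring
      rw [this]
      linarith
    have h7 := h4.trans (htp j)
    have h8 : C * Real.exp (A * (t j).im + (es Λ c (t j)).re) ≤
        C * Real.exp (A * (t j).im + (s0 - ‖c m‖ / 2 * Real.exp (-m * (t j).im))) := by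
      gcongr
    have h9 := h7.trans h8
    have h10 : Real.exp (m' * (t j).im) * Real.exp (-(m' * (t j).im)) = 1 := by
      rw [← Real.exp_add]; simp
    calc ‖c' m'‖ / 2 = Real.exp (m' * (t j).im) * (‖c' m'‖ / 2 * Real.exp (-(m' * (t j).im))) := by
          linear_combination (-(‖c' m'‖ / 2)) * h10
      _ ≤ Real.exp (m' * (t j).im) *
          (C * Real.exp (A * (t j).im + (s0 - ‖c m‖ / 2 * Real.exp (-m * (t j).im)))) := by
          gcongr
      _ = C * Real.exp ((A + m') * (t j).im + s0 - ‖c m‖ / 2 * Real.exp (-m * (t j).im)) := by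
          rw [mul_left_comm, ← Real.exp_add]
          congr 2
          ring
  have := ge_of_tendsto hlim hev
  linarith

end WW47.FS
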