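import Pool.Agent.WW47.FS.Exp

/-!
# Extraction of coefficients, reality
-/

open Complex Filter Topology

namespace WW47.FS

/-- The coefficients of an exponential sum are fixed combinations of its values at finitely many
times near a given time. -/
lemma extract (Λ : Finset ℝ) (t0 : ℝ) {ε : ℝ} (hε : 0 < ε) :
    ∃ (m : ℕ) (τ : ℕ → ℝ) (w : ℝ → ℕ → ℂ), (∀ k < m, |τ k - t0| < ε) ∧
      ∀ (c : ℝ → ℂ), ∀ l ∈ Λ, c l = ∑ k ∈ Finset.range m, w l k * es Λ c (τ k) := by
  classical
  set n := Λ.card with hn
  set B : ℝ := 2 * ∑ l ∈ Λ, |l| + 1 with hB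
  have hB1 : 1 ≤ B := by
    have : 0 ≤ ∑ l ∈ Λ, |l| := Finset.sum_nonneg fun _ _ => abs_nonneg _
    linarith
  set d : ℝ := min (ε / (n + 1)) (1 / B) with hd
  have hd0 : 0 < d := by
    have h1 : 0 < ε / ((n : ℝ) + 1) := by positivity
    have h2 : 0 < 1 / B := by positivity
    exact lt_min h1 h2
  have hdε : d ≤ ε / (n + 1) := min_le_left _ _
  have hdB : d ≤ 1 / B := min_le_right _ _
  set v : ℝ → ℂ := fun l => exp (I * l * d) with hv
  have hinj : Set.InjOn v (Λ : Set ℝ) := by
    intro l hl l' hl' hll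
    have h1 : exp (I * l * d) = exp (I * l' * d) := hll
    rw [exp_eq_exp_iff_exists_int] at h1
    obtain ⟨k, hk⟩ := h1
    have h2 : (l - l') * d = k * (2 * Real.pi) := by
      have h3 : (((l - l') * d : ℝ) : ℂ) * I = ((k * (2 * Real.pi) : ℝ) : ℂ) * I := by
        push_cast
        linear_combination hk
      have h4 := mul_right_cancel₀ I_ne_zero h3
      exact_mod_cast h4
    have h3 : |(l - l') * d| ≤ 1 := by
      have e1 : |l| ≤ ∑ l ∈ Λ, |l| :=
        Finset.single_le_sum (f := fun l : ℝ => |l|) (fun l _ => abs_nonneg l) hl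
      have e2 : |l'| ≤ ∑ l ∈ Λ, |l| :=
        Finset.single_le_sum (f := fun l : ℝ => |l|) (fun l _ => abs_nonneg l) hl'
      have e3 : |l - l'| ≤ B := by
        have := abs_sub l l'
        linarith
      rw [abs_mul, abs_of_pos hd0]
      calc |l - l'| * d ≤ B * (1 / B) := by gcongr
        _ = 1 := by field_simp
    have h4 : k = 0 := by
      by_contra hk0
      have h5 : (1 : ℝ) ≤ |(k : ℝ)| := by
        have := Int.one_le_abs hk0
        exact_mod_cast this
      rw [h2, abs_mul, abs_of_pos (by positivity : (0 : ℝ) < 2 * Real.pi)] at h3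
      have h6 := Real.pi_gt_three
      nlinarith
    rw [h4] at h2
    simp only [Int.cast_zero, zero_mul, mul_eq_zero] at h2
    rcases h2 with h2 | h2
    · linarith
    · linarith
  refine ⟨n + 1, fun k => t0 + k * d,
    fun l k => (Lagrange.basis Λ v l).coeff k * exp (-(I * l * t0)), ?_, ?_⟩
  · intro k hk
    have h1 : (k : ℝ) ≤ n := by exact_mod_cast Nat.lt_succ_iff.1 hk
    have h2 : |t0 + k * d - t0| = k * d := by
      rw [add_sub_cancel_left, abs_of_nonneg (by positivity)]
    rw [h2]
    calc (k : ℝ) * d ≤ n * (ε / (n + 1)) := by gcongr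
      _ < ε := by
        rw [mul_div_assoc', div_lt_iff₀ (by positivity)]
        nlinarith
  · intro c l hl
    have hdeg : (Lagrange.basis Λ v l).natDegree < n + 1 := by
      have h1 := Lagrange.degree_basis hinj hl
      have h2 := Polynomial.natDegree_eq_of_degree_eq_some h1
      rw [h2]
      omega
    have heval : ∀ l' ∈ Λ, ∑ k ∈ Finset.range (n + 1),
        (Lagrange.basis Λ v l).coeff k * v l' ^ k = if l' = l then 1 else 0 := by
      intro l' hl'
      rw [← Polynomial.eval_eq_sum_range' hdeg]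
      split_ifs with h
      · rw [h]
        exact Lagrange.eval_basis_self hinj hl
      · exact Lagrange.eval_basis_of_ne (Ne.symm h) hl'
    unfold es
    have h1 : ∀ k ∈ Finset.range (n + 1),
        (Lagrange.basis Λ v l).coeff k * exp (-(I * l * t0)) *
          ∑ l' ∈ Λ, c l' * exp (I * l' * ((t0 + k * d : ℝ) : ℂ)) =
        ∑ l' ∈ Λ, c l' * exp (I * l' * t0) * exp (-(I * l * t0)) *
          ((Lagrange.basis Λ v l).coeff k * v l' ^ k) := by
      intro k _
      rw [Finset.mul_sum]
      refine Finset.sum_congr rfl fun l' _ => ?_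
      have h2 : exp (I * l' * ((t0 + k * d : ℝ) : ℂ)) = exp (I * l' * t0) * v l' ^ k := by
        rw [hv, ← exp_nat_mul, ← exp_add]
        congr 1
        push_cast
        ring
      rw [h2]
      ring
    rw [Finset.sum_congr rfl h1, Finset.sum_comm]
    have h2 : ∀ l' ∈ Λ, ∑ k ∈ Finset.range (n + 1), c l' * exp (I * l' * t0) *
        exp (-(I * l * t0)) * ((Lagrange.basis Λ v l).coeff k * v l' ^ k) =
        if l' = l then c l else 0 := by
      intro l' hl'
      rw [← Finset.mul_sum, heval l' hl']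
      split_ifs with h
      · rw [h, mul_one, mul_assoc, ← exp_add, add_neg_cancel, exp_zero, mul_one]
      · rw [mul_zero]
    rw [Finset.sum_congr rfl h2, Finset.sum_ite_eq' Λ l (fun _ => c l), if_pos hl]

/-- An entire function which is real on a real interval is symmetric. -/
lemma conj_symm {f : ℂ → ℂ} (hf : Differentiable ℂ f) {a b : ℝ} (hab : a < b)
    (hr : ∀ t : ℝ, a < t → t < b → (f t).im = 0) (z : ℂ) :
    f ((starRingEnd ℂ) z) = (starRingEnd ℂ) (f z) := by
  set g : ℂ → ℂ := fun w => (starRingEnd ℂ) (f ((starRingEnd ℂ) w)) with hg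
  have hgd : Differentiable ℂ g := by
    intro w
    have h1 := (hf ((starRingEnd ℂ) w)).star_star
    have h2 : star ((starRingEnd ℂ) w) = w := by simp
    rw [h2] at h1
    exact h1
  have h1 : AnalyticOnNhd ℂ f Set.univ := fun w _ => hf.analyticAt w
  have h2 : AnalyticOnNhd ℂ g Set.univ := fun w _ => hgd.analyticAt w
  set m : ℝ := (a + b) / 2 with hm
  have h3 : ∃ᶠ w in 𝓝[≠] (m : ℂ), f w = g w := by
    have ht : Tendsto (fun n : ℕ => ((m + (b - a) / (2 * (n + 2)) : ℝ) : ℂ)) atTop
        (𝓝[≠] (m : ℂ)) := by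
      rw [tendsto_nhdsWithin_iff]
      constructor
      · have e1 : Tendsto (fun n : ℕ => (b - a) / (2 * ((n : ℝ) + 2))) atTop (𝓝 0) := by
          refine Tendsto.const_div_atTop ?_ _
          refine Tendsto.const_mul_atTop (by norm_num) ?_
          exact tendsto_atTop_add_const_right _ _ tendsto_natCast_atTop_atTop
        have e2 : Tendsto (fun n : ℕ => m + (b - a) / (2 * ((n : ℝ) + 2))) atTop (𝓝 (m + 0)) :=
          e1.const_add m
        rw [add_zero] at e2
        exact (continuous_ofReal.tendsto m).comp e2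
      · refine Eventually.of_forall fun n => ?_
        have e1 : 0 < (b - a) / (2 * ((n : ℝ) + 2)) := by
          have : 0 < b - a := by linarith
          positivity
        intro e2
        have e3 : m + (b - a) / (2 * ((n : ℝ) + 2)) = m := ofReal_injective e2
        linarith
    refine ht.frequently (Frequently.of_forall fun n => ?_)
    have e1 : 0 < (b - a) / (2 * ((n : ℝ) + 2)) := by
      have : 0 < b - a := by linarith
      positivity
    have e2 : (b - a) / (2 * ((n : ℝ) + 2)) < (b - a) / 2 := by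
      have h0 : 0 < b - a := by linarith
      have h1 : (0 : ℝ) ≤ n := Nat.cast_nonneg n
      rw [div_lt_div_iff₀ (by positivity) (by norm_num)]
      nlinarith
    have e3 := hr (m + (b - a) / (2 * ((n : ℝ) + 2))) (by rw [hm]; linarith)
      (by rw [hm]; linarith)
    rw [hg]
    simp only [conj_ofReal]
    exact (conj_eq_iff_im.2 e3).symm
  have h4 := h1.eq_of_frequently_eq h2 h3
  have h5 := congrFun h4 ((starRingEnd ℂ) z)
  rw [h5, hg]
  simp

/-- If there are no negative frequencies, a real exponential sum is constant. -/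
lemma const_of_nonneg {Λ : Finset ℝ} {c : ℝ → ℂ} (h : ∀ l ∈ Λ, c l ≠ 0 → 0 ≤ l)
    {a b : ℝ} (hab : a < b) (hr : ∀ t : ℝ, a < t → t < b → (es Λ c t).im = 0) (z w : ℂ) :
    es Λ c z = es Λ c w := by
  refine (differentiable_es Λ c).apply_eq_apply_of_bounded ?_ z w
  rw [isBounded_iff_forall_norm_le]
  refine ⟨∑ l ∈ Λ, ‖c l‖, ?_⟩
  rintro _ ⟨t, rfl⟩
  rcases le_total 0 t.im with ht | ht
  · exact es_bdd h t ht
  · have h1 := conj_symm (differentiable_es Λ c) hab hr t
    have h2 : ‖es Λ c t‖ = ‖es Λ c ((starRingEnd ℂ) t)‖ := by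
      rw [h1, RCLike.norm_conj]
    rw [h2]
    exact es_bdd h _ (by rw [conj_im]; linarith)

end WW47.FS
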