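import Pool.Agent.WW47.FS.Loc

/-!
# Conclusion: the surface does not move
-/

open Complex Set Filter Topology

namespace WW47.FS

variable {g κ γ a b : ℝ} {η ψ : ℝ → ℝ → ℝ} {Φ : ℝ → ℂ → ℝ} {q : ℝ → ℝ → ℝ} {p : ℝ → ℝ}
variable {Λ : Finset ℝ}

lemma tendsto_lowest {c : ℝ → ℂ} {m : ℝ} (hm : m ∈ Λ) (hc : ∀ l ∈ Λ, l < m → c l = 0) :
    Tendsto (fun y : ℝ => exp ((m * y : ℝ) : ℂ) * es Λ c (I * y)) atTop (𝓝 (c m)) := by
  classical
  have h1 : (fun y : ℝ => exp ((m * y : ℝ) : ℂ) * es Λ c (I * y)) =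
      fun y : ℝ => ∑ l ∈ Λ, c l * exp (((m - l) * y : ℝ) : ℂ) := by
    funext y
    unfold es
    rw [Finset.mul_sum]
    refine Finset.sum_congr rfl fun l _ => ?_
    rw [mul_left_comm, ← exp_add]
    congr 2
    push_cast
    ring_nf
    rw [I_sq]
    ring
  rw [h1]
  have h2 : c m = ∑ l ∈ Λ, if l = m then c m else 0 := by
    rw [Finset.sum_ite_eq' Λ m (fun _ => c m), if_pos hm]
  rw [h2]
  refine tendsto_finsetSum _ fun l hl => ?_
  rcases lt_trichotomy l m with h | h | h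
  · rw [hc l hl h, if_neg h.ne]
    simp
  · rw [h, if_pos rfl]
    simp
  · rw [if_neg h.ne']
    have h3 : Tendsto (fun y : ℝ => Real.exp ((m - l) * y)) atTop (𝓝 0) := by
      refine Real.tendsto_exp_atBot.comp ?_
      exact tendsto_id.const_mul_atTop_of_neg (by linarith)
    have h4 : Tendsto (fun y : ℝ => ((Real.exp ((m - l) * y) : ℝ) : ℂ)) atTop (𝓝 ((0 : ℝ) : ℂ)) :=
      (continuous_ofReal.tendsto 0).comp h3
    have h5 := h4.const_mul (c l)
    simp only [ofReal_zero, mul_zero] at h5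
    refine h5.congr fun y => ?_
    rw [ofReal_exp]

/-- the product of the lowest coefficients -/
lemma lowest_mul {c c' : ℝ → ℂ} {m : ℝ} (hγ : γ ≠ 0) (hm : m ∈ Λ) (hm0 : m < 0)
    (hc : ∀ l ∈ Λ, l < m → c l = 0) (hc' : ∀ l ∈ Λ, l < m → c' l = 0)
    (h : ∀ t, Pf γ Λ c c' t = 0) : c m * c' m = 0 := by
  have h1 := tendsto_lowest hm hc
  have h2 := tendsto_lowest hm hc'
  have h3 := tendsto_lowest (c := fun l => I * l * c l) hm
    (fun l hl hlm => by rw [hc l hl hlm, mul_zero])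
  have h4 : Tendsto (fun y : ℝ => exp ((m * y : ℝ) : ℂ)) atTop (𝓝 0) := by
    have e1 : Tendsto (fun y : ℝ => Real.exp (m * y)) atTop (𝓝 0) := by
      refine Real.tendsto_exp_atBot.comp ?_
      exact tendsto_id.const_mul_atTop_of_neg hm0
    have e2 := (continuous_ofReal.tendsto 0).comp e1
    simp only [ofReal_zero] at e2
    refine e2.congr fun y => ?_
    simp
  have h5 := h4.mul h3
  rw [zero_mul] at h5
  have h6 := (h1.mul h2).const_mul (γ : ℂ)
  have h7 : (fun y : ℝ => exp ((m * y : ℝ) : ℂ) *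
      (exp ((m * y : ℝ) : ℂ) * es Λ (fun l => I * l * c l) (I * y))) =
      fun y : ℝ => (γ : ℂ) * ((exp ((m * y : ℝ) : ℂ) * es Λ c (I * y)) *
        (exp ((m * y : ℝ) : ℂ) * es Λ c' (I * y))) := by
    funext y
    have h8 := h (I * y)
    unfold Pf at h8
    linear_combination (exp ((m * y : ℝ) : ℂ)) ^ 2 * h8
  rw [h7] at h5
  have h8 := tendsto_nhds_unique h5 h6
  have hγ' : (γ : ℂ) ≠ 0 := by exact_mod_cast hγ
  rcases mul_eq_zero.1 h8.symm with h9 | h9
  · exact absurd h9 hγ'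
  · exact h9

/-- **The surface does not move.** -/
theorem eta_const (hw : WaterWave g κ γ a b η ψ Φ q p) (hdeep : DeepSpec Λ a b Φ)
    (hη : ∀ x, ∃ A : ℝ → ℂ, ∀ t ∈ Ioo a b, (η t x : ℂ) = es Λ A t) :
    ∀ x, ∀ t ∈ Ioo a b, ∀ s ∈ Ioo a b, η t x = η s x := by
  classical
  -- reduce to a strict inequality
  by_contra hcon
  obtain ⟨x1, t0, t1, ht0, ht1, hlt⟩ : ∃ (x1 t0 t1 : ℝ), t0 ∈ Ioo a b ∧ t1 ∈ Ioo a b ∧
      η t0 x1 < η t1 x1 := by
    push Not at hcon
    obtain ⟨x, t, ht, s, hs, hne⟩ := hcon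
    rcases lt_or_gt_of_ne hne with h | h
    · exact ⟨x, t, s, ht, hs, h⟩
    · exact ⟨x, s, t, hs, ht, h⟩
  -- extraction times
  obtain ⟨ε, hε, hball⟩ := Metric.isOpen_iff.1 (isOpen_Ioo (a := a) (b := b)) t0 ht0
  obtain ⟨m, τ, w, hτ0, hext⟩ := extract Λ t0 hε
  have hτ : ∀ k < m, τ k ∈ Ioo a b := fun k hk =>
    hball (by rw [Metric.mem_ball, Real.dist_eq]; exact hτ0 k hk)
  set Ac : ℝ → ℝ → ℂ := fun x l => ∑ k ∈ Finset.range m, w l k * (η (τ k) x : ℂ) with hAc
  set Ac' : ℝ → ℝ → ℂ := fun x l => ∑ k ∈ Finset.range m, w l k * (etax η (τ k) x : ℂ) with hAc'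
  have hrep : ∀ x, ∀ t ∈ Ioo a b, (η t x : ℂ) = es Λ (Ac x) t := by
    intro x t ht
    obtain ⟨A, hA⟩ := hη x
    rw [hA t ht]
    unfold es
    refine Finset.sum_congr rfl fun l hl => ?_
    congr 1
    rw [hext A l hl, hAc]
    refine Finset.sum_congr rfl fun k hk => ?_
    rw [hA (τ k) (hτ k (Finset.mem_range.1 hk))]
  have hder : ∀ x l, HasDerivAt (fun y => Ac y l) (Ac' x l) x := by
    intro x l
    refine HasDerivAt.fun_sum fun k hk => ?_
    exact ((etax_at hw (hτ k (Finset.mem_range.1 hk)) x).ofReal_comp).const_mul _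
  have hrep' : ∀ x, ∀ t ∈ Ioo a b, (etax η t x : ℂ) = es Λ (Ac' x) t := by
    intro x t ht
    have h1 : HasDerivAt (fun y => es Λ (Ac y) t) (es Λ (Ac' x) t) x := by
      unfold es
      exact HasDerivAt.fun_sum fun l _ => (hder x l).mul_const _
    have h2 : HasDerivAt (fun y => ((η t y : ℝ) : ℂ)) ((etax η t x : ℝ) : ℂ) x :=
      (etax_at hw ht x).ofReal_comp
    have h3 : (fun y => ((η t y : ℝ) : ℂ)) = fun y => es Λ (Ac y) t :=
      funext fun y => hrep y t ht
    rw [h3] at h2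
    exact h2.unique h1
  have hcoef : ∀ x, Coef Λ a b η x (Ac x) (Ac' x) := fun x => ⟨hrep x, hrep' x⟩
  have hdef := defect_zero hw hdeep (hcoef x1) ht0 ht1 hlt
  have hab : a < b := ht0.1.trans ht0.2
  have hreal : ∀ x, ∀ t : ℝ, a < t → t < b → (es Λ (Ac x) t).im = 0 := by
    intro x t h1 h2
    rw [← hrep x t ⟨h1, h2⟩, ofReal_im]
  -- not constant
  have hnc : ¬ ∀ z w, es Λ (Ac x1) z = es Λ (Ac x1) w := by
    intro h
    have h1 := h t0 t1
    rw [← hrep x1 t0 ht0, ← hrep x1 t1 ht1] at h1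
    have h2 : η t0 x1 = η t1 x1 := by exact_mod_cast h1
    linarith
  by_cases hγ : γ = 0
  · apply hnc
    refine is_const_of_deriv_eq_zero (differentiable_es Λ (Ac x1)) fun t => ?_
    rw [(hasDerivAt_es Λ (Ac x1) t).deriv]
    have h1 := hdef t
    unfold Pf at h1
    rw [hγ] at h1
    simpa using h1
  -- lowest frequency
  obtain ⟨l1, hl1, hl1n, hl1c⟩ : ∃ l ∈ Λ, l < 0 ∧ Ac x1 l ≠ 0 := by
    by_contra hno
    push Not at hno
    apply hnc
    refine const_of_nonneg (fun l hl hc => ?_) hab (hreal x1)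
    by_contra hneg
    exact hc (hno l hl (not_le.1 hneg))
  set Λ' := Λ.filter fun l => ∃ x, Ac x l ≠ 0 with hΛ'
  have hl1' : l1 ∈ Λ' := Finset.mem_filter.2 ⟨hl1, x1, hl1c⟩
  obtain ⟨μ, hμ, hμmin⟩ : ∃ μ ∈ Λ', ∀ l ∈ Λ', μ ≤ l :=
    ⟨Λ'.min' ⟨l1, hl1'⟩, Λ'.min'_mem _, fun l hl => Λ'.min'_le l hl⟩
  obtain ⟨hμΛ, xs, hxs⟩ := Finset.mem_filter.1 hμ
  have hμ0 : μ < 0 := (hμmin l1 hl1').trans_lt hl1n
  have hlow : ∀ x, ∀ l ∈ Λ, l < μ → Ac x l = 0 := by
    intro x l hl hlμ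
    by_contra hne
    have := hμmin l (Finset.mem_filter.2 ⟨hl, x, hne⟩)
    linarith
  have hlow' : ∀ x, ∀ l ∈ Λ, l < μ → Ac' x l = 0 := by
    intro x l hl hlμ
    have h1 : (fun y => Ac y l) = fun _ => 0 := funext fun y => hlow y l hl hlμ
    have h2 := hder x l
    rw [h1] at h2
    exact h2.unique (hasDerivAt_const x 0)
  have hprod : ∀ x, Ac x μ * Ac' x μ = 0 := by
    intro x
    by_cases hx : ∃ t ∈ Ioo a b, ∃ s ∈ Ioo a b, η t x < η s x
    · obtain ⟨t, ht, s, hs, hts⟩ := hx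
      exact lowest_mul hγ hμΛ hμ0 (hlow x) (hlow' x) (defect_zero hw hdeep (hcoef x) ht hs hts)
    · push Not at hx
      have h1 : ∀ t ∈ Ioo a b, es Λ (fun l => I * l * Ac x l) t = 0 := by
        intro t ht
        rw [← (hcoef x).dt hw ht]
        have h2 : (fun s => η s x) =ᶠ[𝓝 t] fun _ => η t x := by
          filter_upwards [isOpen_Ioo.mem_nhds ht] with s hs
          exact le_antisymm (hx t ht s hs) (hx s hs t ht)
        rw [h2.deriv_eq]
        simp
      have h2 := hext (fun l => I * l * Ac x l) μ hμΛ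
      have h3 : I * μ * Ac x μ = 0 := by
        rw [h2]
        refine Finset.sum_eq_zero fun k hk => ?_
        rw [h1 (τ k) (hτ k (Finset.mem_range.1 hk)), mul_zero]
      have h4 : (μ : ℂ) ≠ 0 := by exact_mod_cast hμ0.ne
      have h5 : Ac x μ = 0 := by
        rcases mul_eq_zero.1 h3 with h6 | h6
        · rcases mul_eq_zero.1 h6 with h7 | h7
          · exact absurd h7 I_ne_zero
          · exact absurd h7 h4
        · exact h6
      rw [h5, zero_mul]
  -- the coefficient is constant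
  have hsq : ∀ x, Ac x μ ^ 2 = Ac xs μ ^ 2 := by
    intro x
    have h1 : ∀ y, HasDerivAt (fun y => Ac y μ ^ 2) 0 y := by
      intro y
      have := (hder y μ).pow 2
      refine this.congr_deriv ?_
      have h2 := hprod y
      push_cast
      linear_combination 2 * h2
    exact is_const_of_deriv_eq_zero (fun y => (h1 y).differentiableAt) (fun y => (h1 y).deriv) x xs
  have hne : ∀ x, Ac x μ ≠ 0 := by
    intro x h0
    have h1 := hsq x
    rw [h0] at h1
    have h2 : Ac xs μ ^ 2 = 0 := by rw [← h1]; ring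
    exact hxs (pow_eq_zero_iff (two_ne_zero) |>.1 h2)
  have hd0 : ∀ x, Ac' x μ = 0 := fun x => (mul_eq_zero.1 (hprod x)).resolve_left (hne x)
  have hconst : ∀ x, Ac x μ = Ac xs μ := by
    intro x
    have h1 : ∀ y, HasDerivAt (fun y => Ac y μ) 0 y := fun y => by
      have := hder y μ
      rwa [hd0 y] at this
    exact is_const_of_deriv_eq_zero (fun y => (h1 y).differentiableAt) (fun y => (h1 y).deriv) x xs
  -- a periodic primitive
  set κ2 : ℂ := I * μ * Ac xs μ with hκ2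
  have hκ2ne : κ2 ≠ 0 := by
    have h4 : (μ : ℂ) ≠ 0 := by exact_mod_cast hμ0.ne
    exact mul_ne_zero (mul_ne_zero I_ne_zero h4) hxs
  set G : ℝ → ℂ := fun x => ∑ k ∈ Finset.range m,
    w μ k * ((q (τ k) x + γ * (η (τ k) x) ^ 2 / 2 : ℝ) : ℂ) with hG
  have hGd : ∀ x, HasDerivAt (fun x => G x - κ2 * x) 0 x := by
    intro x
    have h1 : HasDerivAt G (∑ k ∈ Finset.range m,
        w μ k * ((deriv (fun s => η s x) (τ k) : ℝ) : ℂ)) x := by
      refine HasDerivAt.fun_sum fun k hk => ?_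
      have hk' := hτ k (Finset.mem_range.1 hk)
      have e1 : HasDerivAt (fun x => q (τ k) x + γ * (η (τ k) x) ^ 2 / 2)
          (deriv (fun s => η s x) (τ k)) x := by
        have e2 := (hw.derq (τ k) hk' x).add
          ((((etax_at hw hk' x).pow 2).const_mul γ).div_const 2)
        refine e2.congr_deriv ?_
        rw [hw.kin (τ k) hk' x]
        push_cast
        ring
      exact e1.ofReal_comp.const_mul _
    have h2 : ∑ k ∈ Finset.range m, w μ k * ((deriv (fun s => η s x) (τ k) : ℝ) : ℂ) = κ2 := by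
      have h3 := hext (fun l => I * l * Ac x l) μ hμΛ
      rw [hconst x] at h3
      rw [hκ2, h3]
      refine Finset.sum_congr rfl fun k hk => ?_
      rw [(hcoef x).dt hw (hτ k (Finset.mem_range.1 hk))]
    rw [h2] at h1
    have h3 : HasDerivAt (fun x : ℝ => κ2 * (x : ℂ)) κ2 x := by
      have := ((hasDerivAt_id x).ofReal_comp).const_mul κ2
      simpa using this
    exact (h1.sub h3).congr_deriv (sub_self _)
  have hper := is_const_of_deriv_eq_zero (fun y => (hGd y).differentiableAt)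
    (fun y => (hGd y).deriv) (0 + 2 * Real.pi) 0
  have hGper : G (0 + 2 * Real.pi) = G 0 := by
    rw [hG]
    refine Finset.sum_congr rfl fun k hk => ?_
    have hk' := hτ k (Finset.mem_range.1 hk)
    rw [hw.perq (τ k) hk', hw.perη (τ k) hk']
  rw [hGper] at hper
  have h9 : κ2 * (2 * Real.pi) = 0 := by
    push_cast at hper
    linear_combination -hper
  rcases mul_eq_zero.1 h9 with h10 | h10
  · exact hκ2ne h10
  · have : (2 * Real.pi : ℝ) = 0 := by exact_mod_cast h10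
    have := Real.pi_pos
    linarith

end WW47.FS
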