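import Pool.Agent.WW47.FS.Reg

/-!
# The kinematic identity continued to complex time
-/

open Complex Set Filter Topology

namespace WW47.FS

variable {g κ γ a b : ℝ} {η ψ : ℝ → ℝ → ℝ} {Φ : ℝ → ℂ → ℝ} {q : ℝ → ℝ → ℝ} {p : ℝ → ℝ}
variable {Λ : Finset ℝ}

/-- first complexified velocity at the surface -/
noncomputable def Sf (Λ : Finset ℝ) (U : ℝ → ℂ → ℂ) (N : ℂ → ℂ) (x0 : ℝ) (t : ℂ) : ℂ :=
  ∑ l ∈ Λ, U l (x0 + I * N t) * exp (I * l * t)

/-- second complexified velocity at the surface -/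
noncomputable def Sg (Λ : Finset ℝ) (U : ℝ → ℂ → ℂ) (N : ℂ → ℂ) (x0 : ℝ) (t : ℂ) : ℂ :=
  ∑ l ∈ Λ, (starRingEnd ℂ) (U l ((starRingEnd ℂ) (x0 - I * N t))) * exp (-(I * l * t))

lemma tube1 {x0 s0 c : ℝ} {N : ℂ → ℂ} {t : ℂ} (ht : t ∈ Om N s0 c) :
    |((x0 : ℂ) + I * N t).re - x0| < s0 ∧ ((x0 : ℂ) + I * N t).im < c := by
  have h1 : ((x0 : ℂ) + I * N t).re = x0 - (N t).im := by simp [sub_eq_add_neg]
  have h2 : ((x0 : ℂ) + I * N t).im = (N t).re := by simp
  rw [h1, h2]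
  refine ⟨?_, ht.2⟩
  have : x0 - (N t).im - x0 = -(N t).im := by ring
  rw [this, abs_neg]
  exact ht.1

lemma tube2 {x0 s0 c : ℝ} {N : ℂ → ℂ} {t : ℂ} (ht : t ∈ Om N s0 c) :
    |((starRingEnd ℂ) ((x0 : ℂ) - I * N t)).re - x0| < s0 ∧
      ((starRingEnd ℂ) ((x0 : ℂ) - I * N t)).im < c := by
  have h1 : ((starRingEnd ℂ) ((x0 : ℂ) - I * N t)).re = x0 + (N t).im := by simp
  have h2 : ((starRingEnd ℂ) ((x0 : ℂ) - I * N t)).im = (N t).re := by simp
  rw [h1, h2]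
  refine ⟨?_, ht.2⟩
  have : x0 + (N t).im - x0 = (N t).im := by ring
  rw [this]
  exact ht.1

lemma tube_im1 {x0 : ℝ} {N : ℂ → ℂ} (t : ℂ) : ((x0 : ℂ) + I * N t).im = (N t).re := by simp

lemma tube_im2 {x0 : ℝ} {N : ℂ → ℂ} (t : ℂ) :
    ((starRingEnd ℂ) ((x0 : ℂ) - I * N t)).im = (N t).re := by simp

lemma Sf_diff {U : ℝ → ℂ → ℂ} {N : ℂ → ℂ} {x0 s0 c : ℝ} (hN : Differentiable ℂ N)
    (hU : ∀ l ∈ Λ, ∀ z : ℂ, |z.re - x0| < s0 → z.im < c → DifferentiableAt ℂ (U l) z)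
    {t : ℂ} (ht : t ∈ Om N s0 c) : DifferentiableAt ℂ (Sf Λ U N x0) t := by
  unfold Sf
  refine DifferentiableAt.fun_sum fun l hl => ?_
  have h1 := hU l hl _ (tube1 (x0 := x0) ht).1 (tube1 (x0 := x0) ht).2
  have h2 : DifferentiableAt ℂ (fun t => (x0 : ℂ) + I * N t) t :=
    ((hN t).const_mul I).const_add _
  have h3 : DifferentiableAt ℂ (fun t => U l ((x0 : ℂ) + I * N t)) t := h1.comp t h2
  exact h3.mul (by fun_prop)

lemma Sg_diff {U : ℝ → ℂ → ℂ} {N : ℂ → ℂ} {x0 s0 c : ℝ} (hN : Differentiable ℂ N)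
    (hU : ∀ l ∈ Λ, ∀ z : ℂ, |z.re - x0| < s0 → z.im < c → DifferentiableAt ℂ (U l) z)
    {t : ℂ} (ht : t ∈ Om N s0 c) : DifferentiableAt ℂ (Sg Λ U N x0) t := by
  unfold Sg
  refine DifferentiableAt.fun_sum fun l hl => ?_
  have h1 := hU l hl _ (tube2 (x0 := x0) ht).1 (tube2 (x0 := x0) ht).2
  have h1' : DifferentiableAt ℂ (fun w => (starRingEnd ℂ) (U l ((starRingEnd ℂ) w)))
      ((x0 : ℂ) - I * N t) := by
    have h4 := h1.star_star
    have h5 : star ((starRingEnd ℂ) ((x0 : ℂ) - I * N t)) = (x0 : ℂ) - I * N t :=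
      Complex.conj_conj _
    rw [h5] at h4
    exact h4
  have h2 : DifferentiableAt ℂ (fun t => (x0 : ℂ) - I * N t) t :=
    ((hN t).const_mul I).const_sub _
  have h3 : DifferentiableAt ℂ
      (fun t => (starRingEnd ℂ) (U l ((starRingEnd ℂ) ((x0 : ℂ) - I * N t)))) t :=
    DifferentiableAt.comp (g := fun w => (starRingEnd ℂ) (U l ((starRingEnd ℂ) w))) t h1' h2
  exact h3.mul (by fun_prop)

lemma S_bound {U : ℝ → ℂ → ℂ} {N : ℂ → ℂ} {x0 s0 c B : ℝ} (hB : 0 < B)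
    (hU : ∀ l ∈ Λ, ∀ z : ℂ, z.im ≤ c → ‖U l z‖ ≤ B * Real.exp z.im) {t : ℂ}
    (ht : t ∈ Om N s0 c) :
    ‖Sf Λ U N x0 t‖ ≤ (Λ.card * B) * Real.exp ((∑ l ∈ Λ, |l|) * |t.im| + (N t).re) ∧
    ‖Sg Λ U N x0 t‖ ≤ (Λ.card * B) * Real.exp ((∑ l ∈ Λ, |l|) * |t.im| + (N t).re) := by
  have hl1 : ∀ l ∈ Λ, |l| * |t.im| ≤ (∑ l ∈ Λ, |l|) * |t.im| := by
    intro l hl
    refine mul_le_mul_of_nonneg_right ?_ (abs_nonneg _)
    exact Finset.single_le_sum (f := fun l : ℝ => |l|) (fun l _ => abs_nonneg l) hl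
  constructor
  · unfold Sf
    refine (norm_sum_le _ _).trans ?_
    have h1 : ∀ l ∈ Λ, ‖U l (x0 + I * N t) * exp (I * l * t)‖ ≤
        B * Real.exp ((∑ l ∈ Λ, |l|) * |t.im| + (N t).re) := by
      intro l hl
      rw [norm_mul, norm_exp_il]
      have h2 := hU l hl (x0 + I * N t) (by rw [tube_im1]; exact ht.2.le)
      rw [tube_im1] at h2
      calc ‖U l (x0 + I * N t)‖ * Real.exp (-(l * t.im))
          ≤ (B * Real.exp (N t).re) * Real.exp ((∑ l ∈ Λ, |l|) * |t.im|) := by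
            refine mul_le_mul h2 (Real.exp_le_exp.2 ?_) (Real.exp_pos _).le (by positivity)
            have h3 : -(l * t.im) ≤ |l| * |t.im| := by
              rw [← abs_mul]; exact neg_le_abs _
            linarith [hl1 l hl]
        _ = _ := by rw [mul_assoc, ← Real.exp_add, add_comm]
    refine (Finset.sum_le_sum h1).trans ?_
    rw [Finset.sum_const, nsmul_eq_mul, mul_assoc]
  · unfold Sg
    refine (norm_sum_le _ _).trans ?_
    have h1 : ∀ l ∈ Λ, ‖(starRingEnd ℂ) (U l ((starRingEnd ℂ) (x0 - I * N t))) *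
        exp (-(I * l * t))‖ ≤ B * Real.exp ((∑ l ∈ Λ, |l|) * |t.im| + (N t).re) := by
      intro l hl
      have e1 : ‖exp (-(I * l * t))‖ = Real.exp (l * t.im) := by
        rw [norm_exp]
        congr 1
        simp
      rw [norm_mul, e1, RCLike.norm_conj]
      have h2 := hU l hl ((starRingEnd ℂ) (x0 - I * N t)) (by rw [tube_im2]; exact ht.2.le)
      rw [tube_im2] at h2
      calc ‖U l ((starRingEnd ℂ) (x0 - I * N t))‖ * Real.exp (l * t.im)
          ≤ (B * Real.exp (N t).re) * Real.exp ((∑ l ∈ Λ, |l|) * |t.im|) := by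
            refine mul_le_mul h2 (Real.exp_le_exp.2 ?_) (Real.exp_pos _).le (by positivity)
            have h3 : l * t.im ≤ |l| * |t.im| := by
              rw [← abs_mul]; exact le_abs_self _
            linarith [hl1 l hl]
        _ = _ := by rw [mul_assoc, ← Real.exp_add, add_comm]
    refine (Finset.sum_le_sum h1).trans ?_
    rw [Finset.sum_const, nsmul_eq_mul, mul_assoc]

/-- coefficient functions of the elevation at `x0` and of its slope -/
structure Coef (Λ : Finset ℝ) (a b : ℝ) (η : ℝ → ℝ → ℝ) (x0 : ℝ) (c c' : ℝ → ℂ) : Prop where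
  rep : ∀ t ∈ Ioo a b, (η t x0 : ℂ) = es Λ c t
  rep' : ∀ t ∈ Ioo a b, (etax η t x0 : ℂ) = es Λ c' t

/-- time derivative of the elevation -/
lemma Coef.dt (hw : WaterWave g κ γ a b η ψ Φ q p) {x0 : ℝ} {c c' : ℝ → ℂ}
    (hc : Coef Λ a b η x0 c c') {t : ℝ} (ht : t ∈ Ioo a b) :
    ((deriv (fun s => η s x0) t : ℝ) : ℂ) = es Λ (fun l => I * l * c l) t := by
  have h1 : HasDerivAt (fun s : ℝ => es Λ c s) (es Λ (fun l => I * l * c l) t) t :=
    (hasDerivAt_es Λ c t).comp_ofReal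
  have h2 : HasDerivAt (fun s : ℝ => ((η s x0 : ℝ) : ℂ))
      ((deriv (fun s => η s x0) t : ℝ) : ℂ) t := (etat_at hw ht x0).ofReal_comp
  have h3 : (fun s : ℝ => ((η s x0 : ℝ) : ℂ)) =ᶠ[𝓝 t] fun s : ℝ => es Λ c s := by
    filter_upwards [isOpen_Ioo.mem_nhds ht] with s hs using hc.rep s hs
  exact h2.unique (h1.congr_of_eventuallyEq h3)

/-- the complexified kinematic defect -/
noncomputable def Pf (γ : ℝ) (Λ : Finset ℝ) (c c' : ℝ → ℂ) (t : ℂ) : ℂ :=
  es Λ (fun l => I * l * c l) t - γ * es Λ c t * es Λ c' t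

lemma Pf_mem (γ : ℝ) (Λ : Finset ℝ) (c c' : ℝ → ℂ) : Pf γ Λ c c' ∈ EPA := by
  have h1 : Pf γ Λ c c' = es Λ (fun l => I * l * c l) - (γ : ℂ) • (es Λ c * es Λ c') := by
    funext t
    simp only [Pf, Pi.sub_apply, Pi.smul_apply, Pi.mul_apply, smul_eq_mul]
    ring
  rw [h1]
  exact EPA.sub_mem (es_mem _ _) (EPA.smul_mem (EPA.mul_mem (es_mem _ _) (es_mem _ _)) _)

lemma Pf_diff (γ : ℝ) (Λ : Finset ℝ) (c c' : ℝ → ℂ) : Differentiable ℂ (Pf γ Λ c c') := by
  unfold Pf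
  exact (differentiable_es _ _).sub (((differentiable_const _).mul (differentiable_es _ _)).mul
    (differentiable_es _ _))

/-- **The kinematic defect vanishes** if the elevation at `x0` changes in time. -/
theorem defect_zero (hw : WaterWave g κ γ a b η ψ Φ q p) (hdeep : DeepSpec Λ a b Φ) {x0 : ℝ}
    {c c' : ℝ → ℂ} (hc : Coef Λ a b η x0 c c') {t0 t1 : ℝ} (ht0 : t0 ∈ Ioo a b)
    (ht1 : t1 ∈ Ioo a b) (hlt : η t0 x0 < η t1 x0) : ∀ t, Pf γ Λ c c' t = 0 := by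
  classical
  obtain ⟨lev, hlev0, hlev1⟩ := exists_between hlt
  -- a box where the surface is above the level
  obtain ⟨s0, hs0, hbox⟩ : ∃ s0 > 0, ∀ s : ℝ, |s - t1| < s0 → s ∈ Ioo a b ∧
      ∀ x : ℝ, |x - x0| < s0 → lev < η s x := by
    have h1 : ContinuousAt (fun P : ℝ × ℝ => η P.1 P.2) (t1, x0) :=
      (hw.regη.continuousOn).continuousAt ((isOpen_domR a b).mem_nhds ⟨ht1, mem_univ _⟩)
    have h2 : ∀ᶠ P : ℝ × ℝ in 𝓝 (t1, x0), lev < η P.1 P.2 :=
      h1.eventually (lt_mem_nhds hlev1)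
    obtain ⟨r, hr, hr2⟩ := Metric.eventually_nhds_iff.1 h2
    obtain ⟨r', hr', hr2'⟩ := Metric.isOpen_iff.1 (isOpen_Ioo (a := a) (b := b)) t1 ht1
    refine ⟨min r r', lt_min hr hr', fun s hs => ⟨?_, fun x hx => ?_⟩⟩
    · exact hr2' (by rw [Metric.mem_ball, Real.dist_eq]; exact hs.trans_le (min_le_right _ _))
    · refine hr2 (y := (s, x)) ?_
      rw [Prod.dist_eq, max_lt_iff, Real.dist_eq, Real.dist_eq]
      exact ⟨hs.trans_le (min_le_left _ _), hx.trans_le (min_le_left _ _)⟩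
  obtain ⟨m, τ, w, hτ0, hext⟩ := extract Λ t1 hs0
  have hτ : ∀ k < m, τ k ∈ Ioo a b := fun k hk => (hbox _ (hτ0 k hk)).1
  set U : ℝ → ℂ → ℂ := Ul Φ m τ w with hU
  set N : ℂ → ℂ := es Λ c with hN
  have hNd : Differentiable ℂ N := differentiable_es _ _
  have hNreal : ∀ t : ℝ, t ∈ Ioo a b → N t = (η t x0 : ℂ) := fun t ht => (hc.rep t ht).symm
  have hMreal : ∀ t : ℝ, t ∈ Ioo a b → es Λ c' t = (etax η t x0 : ℂ) :=
    fun t ht => (hc.rep' t ht).symm
  have hUd : ∀ l ∈ Λ, ∀ z : ℂ, |z.re - x0| < s0 → z.im < lev → DifferentiableAt ℂ (U l) z := by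
    intro l _ z hz1 hz2
    exact Ul_hol hw hτ l fun k hk => hz2.trans ((hbox _ (hτ0 k hk)).2 _ hz1)
  obtain ⟨B, hB0, hB⟩ := Ul_bound (Λ := Λ) (w := w) hw hτ lev
  set R : ℂ → ℂ := fun t => I * (Sf Λ U N x0 t - Sg Λ U N x0 t) / 2 -
    es Λ c' t * (Sf Λ U N x0 t + Sg Λ U N x0 t) / 2 with hR
  -- the identity at real times
  have hreal : ∀ t : ℝ, t ∈ Ioo a b → η t x0 < lev → Pf γ Λ c c' t = R t := by
    intro t ht htl
    have hsurf : (x0 : ℂ) + I * N t = surf η t x0 := by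
      rw [hNreal t ht]
      unfold surf
      ring
    have hsurf' : (starRingEnd ℂ) ((x0 : ℂ) - I * N t) = surf η t x0 := by
      rw [hNreal t ht]
      unfold surf
      simp [mul_comm]
    have hv := vel_surf hw hdeep hτ hext ht (x := x0)
      (fun k hk => htl.trans ((hbox _ (hτ0 k hk)).2 x0 (by simpa using hs0)))
    have h1 : Sf Λ U N x0 t = Wt Φ (t, surf η t x0) := by
      rw [hv]
      unfold Sf es
      rw [hsurf]
    have h2 : Sg Λ U N x0 t = (starRingEnd ℂ) (Wt Φ (t, surf η t x0)) := by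
      rw [hv]
      unfold Sg es
      rw [map_sum, hsurf']
      refine Finset.sum_congr rfl fun l _ => ?_
      rw [map_mul, ← exp_conj]
      congr 2
      simp
    have hkin := hw.kin t ht x0
    have h3 : ((deriv (fun s => η s x0) t : ℝ) : ℂ) = es Λ (fun l => I * l * c l) t :=
      hc.dt hw ht
    rw [hkin] at h3
    have h4 : Wt Φ (t, surf η t x0) = (px Φ t (surf η t x0) : ℂ) - I * (py Φ t (surf η t x0) : ℂ) := by
      rw [← vel_eq hw.regΦ ht]
      rfl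
    have h5 : (starRingEnd ℂ) (Wt Φ (t, surf η t x0)) =
        (px Φ t (surf η t x0) : ℂ) + I * (py Φ t (surf η t x0) : ℂ) := by
      rw [h4]
      simp
    rw [hR]
    simp only
    rw [h1, h2, h5, h4]
    unfold Pf
    rw [← h3]
    have h6 : es Λ c t = (η t x0 : ℂ) := hNreal t ht
    rw [h6, hMreal t ht]
    unfold DN
    push_cast
    have hI : I ^ 2 = -1 := I_sq
    linear_combination (py Φ t (surf η t x0) : ℂ) * hI
  -- the domain
  have hN0 : (N t0).im = 0 := by rw [hNreal t0 ht0]; simp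
  have hN0' : (N t0).re < lev := by rw [hNreal t0 ht0]; simpa using hlev0
  have hN1 : lev < (N t1).re := by rw [hNreal t1 ht1]; simpa using hlev1
  set O := connectedComponentIn (Om N s0 lev) t0 with hO
  have hOo : IsOpen O := (isOpen_Om hNd.continuous s0 lev).connectedComponentIn
  have hOp : IsPreconnected O := isPreconnected_connectedComponentIn
  have ht0O : (t0 : ℂ) ∈ O := by
    refine mem_connectedComponentIn ⟨?_, hN0'⟩
    rw [hN0, abs_zero]
    exact hs0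
  have hOsub : O ⊆ Om N s0 lev := connectedComponentIn_subset _ _
  have hRd : DifferentiableOn ℂ R O := by
    intro t ht
    have e1 := Sf_diff (Λ := Λ) hNd hUd (hOsub ht)
    have e2 := Sg_diff (Λ := Λ) hNd hUd (hOsub ht)
    have e3 : DifferentiableAt ℂ (es Λ c') t := differentiable_es Λ c' t
    exact ((((e1.sub e2).const_mul I).div_const 2).sub
      ((e3.mul (e1.add e2)).div_const 2)).differentiableWithinAt
  have hPR : ∀ t ∈ O, Pf γ Λ c c' t = R t := by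
    have e1 : AnalyticOnNhd ℂ (Pf γ Λ c c') O :=
      (Pf_diff γ Λ c c').differentiableOn.analyticOnNhd hOo
    have e2 : AnalyticOnNhd ℂ R O := hRd.analyticOnNhd hOo
    have e3 : ∃ᶠ t in 𝓝[≠] (t0 : ℂ), Pf γ Λ c c' t = R t := by
      have hcη : ContinuousAt (fun s => η s x0) t0 :=
        (etat_at hw ht0 x0).continuousAt
      have hev : ∀ᶠ s : ℝ in 𝓝 t0, s ∈ Ioo a b ∧ η s x0 < lev := by
        filter_upwards [isOpen_Ioo.mem_nhds ht0, hcη.eventually (gt_mem_nhds hlev0)] with s h1 h2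
          using ⟨h1, h2⟩
      have hev' : ∀ᶠ s : ℝ in 𝓝[≠] t0, Pf γ Λ c c' s = R s := by
        filter_upwards [hev.filter_mono nhdsWithin_le_nhds] with s hs using hreal s hs.1 hs.2
      have htend : Tendsto (fun s : ℝ => (s : ℂ)) (𝓝[≠] t0) (𝓝[≠] (t0 : ℂ)) := by
        rw [tendsto_nhdsWithin_iff]
        refine ⟨(continuous_ofReal.tendsto t0).mono_left nhdsWithin_le_nhds, ?_⟩
        filter_upwards [self_mem_nhdsWithin] with s hs
        intro h
        exact hs (ofReal_injective h)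
      exact htend.frequently hev'.frequently
    intro t ht
    exact e1.eqOn_of_preconnected_of_frequently_eq e2 hOp ht0O e3 ht
  -- symmetric functions
  have hNsym : ∀ t, N ((starRingEnd ℂ) t) = (starRingEnd ℂ) (N t) := by
    refine conj_symm hNd (a := a) (b := b) (ht0.1.trans ht0.2) fun t h1 h2 => ?_
    rw [hNreal t ⟨h1, h2⟩]
    simp
  have hPsym : ∀ t, Pf γ Λ c c' ((starRingEnd ℂ) t) = (starRingEnd ℂ) (Pf γ Λ c c' t) := by
    refine conj_symm (Pf_diff γ Λ c c') (a := a) (b := b) (ht0.1.trans ht0.2) fun t h1 h2 => ?_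
    have ht : t ∈ Ioo a b := ⟨h1, h2⟩
    unfold Pf
    rw [← hc.dt hw ht, ← hc.rep t ht, ← hc.rep' t ht]
    have e1 : ((γ : ℂ) * (η t x0 : ℂ) * (etax η t x0 : ℂ)) = ((γ * η t x0 * etax η t x0 : ℝ) : ℂ) := by
      push_cast; ring
    rw [e1, ← ofReal_sub, ofReal_im]
  -- growth
  obtain ⟨σ, K, hσ, hK, hup⟩ := es_upper Λ c'
  set S : ℝ := ∑ l ∈ Λ, |l| with hS
  have hS0 : 0 ≤ S := Finset.sum_nonneg fun _ _ => abs_nonneg _
  have hPb : ∀ t ∈ O, ‖Pf γ Λ c c' t‖ ≤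
      ((1 + K) * (Λ.card * B)) * Real.exp ((S + σ) * |t.im| + (N t).re) := by
    intro t ht
    rw [hPR t ht]
    obtain ⟨b1, b2⟩ := S_bound (Λ := Λ) (x0 := x0) hB0 hB (hOsub ht)
    rw [← hS] at b1 b2
    set Q : ℝ := (Λ.card * B) * Real.exp (S * |t.im| + (N t).re) with hQ
    have hQ0 : 0 ≤ Q := by positivity
    have e1 : ‖I * (Sf Λ U N x0 t - Sg Λ U N x0 t) / 2‖ ≤ Q := by
      rw [norm_div, norm_mul, norm_I, one_mul]
      have h2 : ‖(2 : ℂ)‖ = 2 := by simp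
      rw [h2]
      have h3 := norm_sub_le (Sf Λ U N x0 t) (Sg Λ U N x0 t)
      have h4 : ‖Sf Λ U N x0 t - Sg Λ U N x0 t‖ ≤ 2 * Q := by linarith
      linarith
    have e2 : ‖es Λ c' t * (Sf Λ U N x0 t + Sg Λ U N x0 t) / 2‖ ≤
        K * Real.exp (σ * |t.im|) * Q := by
      rw [norm_div, norm_mul]
      have h2 : ‖(2 : ℂ)‖ = 2 := by simp
      rw [h2]
      have h3 := norm_add_le (Sf Λ U N x0 t) (Sg Λ U N x0 t)
      have h4 : ‖Sf Λ U N x0 t + Sg Λ U N x0 t‖ ≤ 2 * Q := by linarith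
      have h5 : ‖es Λ c' t‖ * ‖Sf Λ U N x0 t + Sg Λ U N x0 t‖ ≤
          (K * Real.exp (σ * |t.im|)) * (2 * Q) := by
        gcongr
        exact hup t
      linarith
    have e3 : 1 ≤ Real.exp (σ * |t.im|) := Real.one_le_exp (by positivity)
    calc ‖R t‖ ≤ Q + K * Real.exp (σ * |t.im|) * Q := (norm_sub_le _ _).trans (add_le_add e1 e2)
      _ ≤ Real.exp (σ * |t.im|) * Q + K * Real.exp (σ * |t.im|) * Q := by
          have := mul_le_mul_of_nonneg_right e3 hQ0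
          linarith
      _ = ((1 + K) * (Λ.card * B)) * (Real.exp (σ * |t.im|) * Real.exp (S * |t.im| + (N t).re)) := by
          rw [hQ]; ring
      _ = _ := by
          rw [← Real.exp_add]
          congr 2
          ring
  refine growth (es_mem Λ c) (Pf_mem γ Λ c c') (s0 := s0) (A := S + σ)
    (C := (1 + K) * (Λ.card * B)) fun K' => ?_
  obtain ⟨t, htO, htK⟩ := unbounded hNd hs0 hN0 hN0' hN1 K'
  have htO' : t ∈ Om N s0 lev := hOsub htO
  have hb1 := hPb t htO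
  rcases le_total 0 t.im with hpos | hneg
  · refine ⟨t, hpos, htK.le, htO'.1.le, ?_⟩
    rw [abs_of_nonneg hpos] at hb1
    exact hb1
  · refine ⟨(starRingEnd ℂ) t, ?_, ?_, ?_, ?_⟩
    · rw [conj_im]; linarith
    · show (N ((starRingEnd ℂ) t)).re ≤ -K'
      rw [hNsym, conj_re]
      exact htK.le
    · show |(N ((starRingEnd ℂ) t)).im| ≤ s0
      rw [hNsym, conj_im, abs_neg]
      exact htO'.1.le
    · rw [hPsym, RCLike.norm_conj]
      have e1 : (N ((starRingEnd ℂ) t)).re = (N t).re := by rw [hNsym, conj_re]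
      show ‖Pf γ Λ c c' t‖ ≤ (1 + K) * (Λ.card * B) *
        Real.exp ((S + σ) * ((starRingEnd ℂ) t).im + (N ((starRingEnd ℂ) t)).re)
      rw [e1, conj_im]
      rw [abs_of_nonpos hneg] at hb1
      exact hb1

end WW47.FS
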