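import Pool.Agent.WW47.Flat

/-!
# Uniqueness for the Neumann problem below a graph
-/

open Complex Set Filter Topology MeasureTheory

namespace WW47.FS

/-- the region below the graph of `h` -/
def Below (h : ℝ → ℝ) : Set ℂ := {z | z.im < h z.re}

lemma isOpen_Below {h : ℝ → ℝ} (hh : Continuous h) : IsOpen (Below h) :=
  isOpen_lt continuous_im (hh.comp continuous_re)

lemma Below_down {h : ℝ → ℝ} {z : ℂ} (hz : z ∈ Below h) {s : ℝ} (hs : s ≤ 0) :
    z + s * I ∈ Below h := by
  have h1 : (z + s * I).im = z.im + s := by simp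
  have h2 : (z + s * I).re = z.re := by simp
  show (z + s * I).im < h (z + s * I).re
  rw [h1, h2]
  have : z.im < h z.re := hz
  linarith

lemma isPreconnected_Below {h : ℝ → ℝ} {C : ℝ} (hC : ∀ x, -C < h x) :
    IsPreconnected (Below h) := by
  have h0 : (((-C - 1 : ℝ) : ℂ) * I) ∈ {z : ℂ | z.im < -C} := by
    show (((-C - 1 : ℝ) : ℂ) * I).im < -C
    simp
  have hH : {z : ℂ | z.im < -C} ⊆ Below h := fun z hz => lt_trans hz (hC z.re)
  refine isPreconnected_of_forall (((-C - 1 : ℝ) : ℂ) * I) fun z hz => ?_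
  set R : Set ℂ := {w : ℂ | w.re = z.re ∧ w.im ≤ z.im} with hR
  have hRc : Convex ℝ R := by
    intro u hu v hv a b ha hb hab
    refine ⟨?_, ?_⟩
    · simp only [add_re, real_smul, re_ofReal_mul]
      rw [hu.1, hv.1, ← add_mul, hab, one_mul]
    · simp only [add_im, real_smul, im_ofReal_mul]
      calc a * u.im + b * v.im ≤ a * z.im + b * z.im :=
            add_le_add (mul_le_mul_of_nonneg_left hu.2 ha) (mul_le_mul_of_nonneg_left hv.2 hb)
        _ = z.im := by rw [← add_mul, hab, one_mul]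
  refine ⟨{w : ℂ | w.im < -C} ∪ R, union_subset hH ?_, Or.inl h0, Or.inr ⟨rfl, le_rfl⟩, ?_⟩
  · intro w hw
    show w.im < h w.re
    rw [hw.1]
    exact lt_of_le_of_lt hw.2 hz
  · set v : ℂ := ⟨z.re, min z.im (-C - 1)⟩ with hv
    refine IsPreconnected.union v ?_ ?_ (convex_halfSpace_im_lt _).isPreconnected
      hRc.isPreconnected
    · show min z.im (-C - 1) < -C
      have := min_le_right z.im (-C - 1)
      linarith
    · exact ⟨rfl, min_le_left _ _⟩

section

variable {f : ℂ → ℂ} {h : ℝ → ℝ}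

lemma exp_bound (hper : ∀ z, f (z + 2 * Real.pi) = f z) (hcont : Continuous f)
    (hol : ∀ z ∈ Below h, DifferentiableAt ℂ f z)
    (h0 : ∀ ε > 0, ∃ Y : ℝ, ∀ z : ℂ, z.im < Y → ‖f z‖ ≤ ε)
    {C : ℝ} (hC : ∀ x, -C < h x) (c' : ℝ) :
    ∃ B, 0 < B ∧ ∀ z : ℂ, z.im ≤ c' → ‖f z‖ ≤ B * Real.exp z.im := by
  obtain ⟨B1, hB1⟩ := bdd_of_periodic (a := -C) (b := -C) hper hcont.continuousOn
  obtain ⟨B2, hB2⟩ := bdd_of_periodic (a := -C) (b := c') hper hcont.continuousOn
  refine ⟨(|B1| + |B2| + 1) * Real.exp C, by positivity, fun z hz => ?_⟩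
  have hE : (|B1| + |B2| + 1) * Real.exp C * Real.exp z.im =
      (|B1| + |B2| + 1) * Real.exp (z.im + C) := by
    rw [mul_assoc, ← Real.exp_add, add_comm C]
  rw [hE]
  rcases le_total z.im (-C) with h1 | h1
  · have h2 : ‖f z‖ ≤ B1 * Real.exp (z.im + C) := by
      refine decay (f := f) hper ?_ hcont.continuousOn h0 (B := B1) ?_ z h1
      · intro w hw
        exact (hol w (lt_trans hw (hC w.re))).differentiableWithinAt
      · intro x
        exact hB1 _ (by simp) (by simp)
    refine h2.trans ?_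
    gcongr
    have := le_abs_self B1
    have := abs_nonneg B2
    linarith
  · have h2 := hB2 z h1 hz
    have h3 : 1 ≤ Real.exp (z.im + C) := Real.one_le_exp (by linarith)
    have h4 : ‖f z‖ ≤ |B1| + |B2| + 1 := by
      have := le_abs_self B2
      have := abs_nonneg B1
      linarith
    calc ‖f z‖ ≤ (|B1| + |B2| + 1) * 1 := by rw [mul_one]; exact h4
      _ ≤ _ := by gcongr

/-- the primitive which vanishes at `-i∞` -/
noncomputable def Fp (f : ℂ → ℂ) (z : ℂ) : ℂ := I * ∫ s in Iic (0 : ℝ), f (z + s * I)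

lemma Fp_per (hper : ∀ z, f (z + 2 * Real.pi) = f z) (z : ℂ) :
    Fp f (z + 2 * Real.pi) = Fp f z := by
  unfold Fp
  congr 1
  refine integral_congr_ae (Eventually.of_forall fun s => ?_)
  show f (z + 2 * Real.pi + s * I) = f (z + s * I)
  rw [← hper (z + s * I)]
  congr 1
  ring

lemma shift_int {B c' : ℝ} (hcont : Continuous f)
    (hB : ∀ z : ℂ, z.im ≤ c' → ‖f z‖ ≤ B * Real.exp z.im) {z : ℂ} (hz : z.im ≤ c') :
    IntegrableOn (fun s : ℝ => f (z + s * I)) (Iic 0) ∧
      ‖∫ s in Iic (0 : ℝ), f (z + s * I)‖ ≤ B * Real.exp z.im := by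
  have hb : ∀ s ∈ Iic (0 : ℝ), ‖f (z + s * I)‖ ≤ B * Real.exp z.im * Real.exp s := by
    intro s hs
    have hs' : s ≤ 0 := hs
    have h1 : (z + s * I).im = z.im + s := by simp
    have h2 := hB (z + s * I) (by rw [h1]; linarith)
    rw [h1, Real.exp_add, ← mul_assoc] at h2
    exact h2
  have hi : IntegrableOn (fun s : ℝ => B * Real.exp z.im * Real.exp s) (Iic 0) :=
    (integrableOn_exp_Iic 0).const_mul _
  refine ⟨?_, ?_⟩
  · refine Integrable.mono' hi ?_ ?_
    · exact (Continuous.aestronglyMeasurable (by fun_prop))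
    · exact (ae_restrict_iff' measurableSet_Iic).2 (Eventually.of_forall hb)
  · calc ‖∫ s in Iic (0 : ℝ), f (z + s * I)‖
        ≤ ∫ s in Iic (0 : ℝ), B * Real.exp z.im * Real.exp s :=
          norm_integral_le_of_norm_le hi
            ((ae_restrict_iff' measurableSet_Iic).2 (Eventually.of_forall hb))
      _ = B * Real.exp z.im := by
          rw [integral_const_mul, integral_exp_Iic_zero, mul_one]

lemma Fp_bound {B c' : ℝ} (hcont : Continuous f)
    (hB : ∀ z : ℂ, z.im ≤ c' → ‖f z‖ ≤ B * Real.exp z.im) {z : ℂ} (hz : z.im ≤ c') :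
    ‖Fp f z‖ ≤ B * Real.exp z.im := by
  unfold Fp
  rw [norm_mul, norm_I, one_mul]
  exact (shift_int hcont hB hz).2

lemma Fp_cont (hcont : Continuous f)
    (hB : ∀ c' : ℝ, ∃ B, 0 < B ∧ ∀ z : ℂ, z.im ≤ c' → ‖f z‖ ≤ B * Real.exp z.im) :
    Continuous (Fp f) := by
  rw [continuous_iff_continuousAt]
  intro z0
  obtain ⟨B, hB0, hB1⟩ := hB (z0.im + 1)
  refine ContinuousAt.const_mul ?_ _
  have hev : ∀ᶠ z : ℂ in 𝓝 z0, z.im < z0.im + 1 :=
    (continuous_im.tendsto z0).eventually (gt_mem_nhds (by linarith))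
  refine continuousAt_of_dominated (bound := fun s => B * Real.exp (z0.im + 1) * Real.exp s)
    ?_ ?_ ((integrableOn_exp_Iic 0).const_mul _) ?_
  · exact Eventually.of_forall fun z => Continuous.aestronglyMeasurable (by fun_prop)
  · filter_upwards [hev] with z hz
    refine (ae_restrict_iff' measurableSet_Iic).2 (Eventually.of_forall fun s hs => ?_)
    have hs' : s ≤ 0 := hs
    have h1 : (z + s * I).im = z.im + s := by simp
    have h2 := hB1 (z + s * I) (by rw [h1]; linarith)
    rw [h1] at h2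
    refine h2.trans ?_
    rw [mul_assoc, ← Real.exp_add]
    gcongr
  · exact Eventually.of_forall fun s => (Continuous.continuousAt (by fun_prop))

lemma Fp_deriv (hper : ∀ z, f (z + 2 * Real.pi) = f z) (hcont : Continuous f)
    (hhc : Continuous h) (hol : ∀ z ∈ Below h, DifferentiableAt ℂ f z)
    (hB : ∀ c' : ℝ, ∃ B, 0 < B ∧ ∀ z : ℂ, z.im ≤ c' → ‖f z‖ ≤ B * Real.exp z.im)
    {z0 : ℂ} (hz0 : z0 ∈ Below h) : HasDerivAt (Fp f) (f z0) z0 := by
  have hDo := isOpen_Below hhc
  obtain ⟨r, hr, hball⟩ : ∃ r > 0, Metric.ball z0 (2 * r) ⊆ Below h := by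
    obtain ⟨r, hr, hsub⟩ := Metric.isOpen_iff.1 hDo z0 hz0
    exact ⟨r / 2, by positivity, by rwa [mul_div_cancel₀ _ (two_ne_zero)]⟩
  obtain ⟨B, hB0, hB1⟩ := hB (z0.im + 2 * r)
  have hdo : DifferentiableOn ℂ f (Below h) := fun z hz => (hol z hz).differentiableWithinAt
  have hderc : ContinuousOn (deriv f) (Below h) :=
    (hdo.deriv hDo).continuousOn
  have hDeriv : ∀ s : ℝ, s ≤ 0 → ∀ z ∈ Metric.ball z0 r,
      ‖deriv f (z + s * I)‖ ≤ B * Real.exp (z0.im + 2 * r) / r * Real.exp s := by
    intro s hs z hz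
    have h1 : ‖deriv f (z + s * I)‖ ≤ (B * Real.exp (z0.im + 2 * r + s)) / r := by
      have hsub : ∀ w ∈ Metric.closedBall (z + s * I) r, w - s * I ∈ Metric.ball z0 (2 * r) := by
        intro w hw
        rw [Metric.mem_closedBall, dist_eq_norm] at hw
        rw [Metric.mem_ball, dist_eq_norm] at hz ⊢
        calc ‖w - s * I - z0‖ = ‖(w - (z + s * I)) + (z - z0)‖ := by ring_nf
          _ ≤ ‖w - (z + s * I)‖ + ‖z - z0‖ := norm_add_le _ _
          _ < 2 * r := by linarith
      have hsubD : ∀ w ∈ Metric.closedBall (z + s * I) r, w ∈ Below h := by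
        intro w hw
        have h2 := Below_down (hball (hsub w hw)) hs
        rwa [sub_add_cancel] at h2
      refine norm_deriv_le_of_forall_mem_sphere_norm_le hr ?_ ?_
      · refine DifferentiableOn.diffContOnCl ?_
        rw [closure_ball _ hr.ne']
        exact fun w hw => (hol w (hsubD w hw)).differentiableWithinAt
      · intro w hw
        have hw' : w ∈ Metric.closedBall (z + s * I) r := Metric.sphere_subset_closedBall hw
        have h3 := hsub w hw'
        rw [Metric.mem_ball, dist_eq_norm] at h3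
        have h4 : w.im ≤ z0.im + 2 * r + s := by
          have h5 := (Complex.abs_im_le_norm (w - s * I - z0)).trans h3.le
          have h6 : (w - s * I - z0).im = w.im - s - z0.im := by simp
          rw [h6] at h5
          have := le_abs_self (w.im - s - z0.im)
          linarith
        refine (hB1 w (by linarith)).trans ?_
        gcongr
    refine h1.trans (le_of_eq ?_)
    rw [Real.exp_add (z0.im + 2 * r) s]
    ring
  have hmain := hasDerivAt_integral_of_dominated_loc_of_deriv_le
    (μ := volume.restrict (Iic (0 : ℝ))) (F := fun (z : ℂ) (s : ℝ) => f (z + s * I))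
    (F' := fun (z : ℂ) (s : ℝ) => deriv f (z + s * I)) (x₀ := z0) (s := Metric.ball z0 r)
    (bound := fun s => B * Real.exp (z0.im + 2 * r) / r * Real.exp s)
    (Metric.ball_mem_nhds z0 hr)
    (Eventually.of_forall fun z => Continuous.aestronglyMeasurable (by fun_prop))
    (shift_int hcont hB1 (by linarith : z0.im ≤ z0.im + 2 * r)).1
    ?_ ?_ ((integrableOn_exp_Iic 0).const_mul _) ?_
  · have h1 : HasDerivAt (fun z => I * ∫ s in Iic (0 : ℝ), f (z + s * I))
        (I * ∫ s in Iic (0 : ℝ), deriv f (z0 + s * I)) z0 := hmain.2.const_mul I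
    refine HasDerivAt.congr_deriv h1 ?_
    rw [← integral_const_mul]
    have h2 := integral_Iic_of_hasDerivAt_of_tendsto' (f := fun s : ℝ => f (z0 + s * I))
      (f' := fun s : ℝ => I * deriv f (z0 + s * I)) (a := 0) (m := 0) ?_ ?_ ?_
    · rw [h2]
      simp
    · intro s hs
      have h3 : HasDerivAt (fun s : ℝ => z0 + s * I) I s := by
        have := ((hasDerivAt_id s).ofReal_comp.mul_const I).const_add z0
        simpa using this
      have h4 := (hol _ (Below_down hz0 hs)).hasDerivAt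
      have h5 : HasDerivAt (fun s : ℝ => f (z0 + s * I)) (I • deriv f (z0 + s * I)) s :=
        h4.scomp s h3
      simpa [smul_eq_mul] using h5
    · exact hmain.1.const_mul I
    · obtain ⟨B', hB0', hB1'⟩ := hB z0.im
      have h3 : Tendsto (fun s : ℝ => B' * Real.exp z0.im * Real.exp s) atBot (𝓝 0) := by
        have := Real.tendsto_exp_atBot.const_mul (B' * Real.exp z0.im)
        rwa [mul_zero] at this
      refine squeeze_zero_norm' ?_ h3
      filter_upwards [eventually_le_atBot 0] with s hs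
      have h4 : (z0 + s * I).im = z0.im + s := by simp
      have h5 := hB1' (z0 + s * I) (by rw [h4]; linarith)
      rw [h4, Real.exp_add, ← mul_assoc] at h5
      exact h5
  · refine ContinuousOn.aestronglyMeasurable ?_ measurableSet_Iic
    refine hderc.comp (by fun_prop) fun s hs => Below_down hz0 hs
  · exact (ae_restrict_iff' measurableSet_Iic).2 (Eventually.of_forall fun s hs z hz =>
      hDeriv s hs z hz)
  · refine (ae_restrict_iff' measurableSet_Iic).2 (Eventually.of_forall fun s hs z hz => ?_)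
    have hzD : z ∈ Below h := hball (Metric.ball_subset_ball (by linarith) hz)
    have h1 := (hol _ (Below_down hzD hs)).hasDerivAt
    exact HasDerivAt.comp_add_const z (s * I) h1

/-- The imaginary part of the primitive is constant on the boundary. -/
lemma Fp_bdry (hper : ∀ z, f (z + 2 * Real.pi) = f z) (hcont : Continuous f)
    {h' : ℝ → ℝ} (hh : ∀ x, HasDerivAt h (h' x) x) (hh' : Continuous h')
    (hol : ∀ z ∈ Below h, DifferentiableAt ℂ f z)
    (hB : ∀ c' : ℝ, ∃ B, 0 < B ∧ ∀ z : ℂ, z.im ≤ c' → ‖f z‖ ≤ B * Real.exp z.im)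
    (hb : ∀ x : ℝ, ((1 + I * h' x) * f (x + h x * I)).im = 0) (x y : ℝ) :
    (Fp f (x + h x * I)).im = (Fp f (y + h y * I)).im := by
  have hhc : Continuous h := continuous_iff_continuousAt.2 fun x => (hh x).continuousAt
  have hFc := Fp_cont hcont hB
  set G : ℝ → ℝ → ℝ := fun ε s => ((1 + I * h' s) * f (s + ((h s - ε : ℝ) : ℂ) * I)).im with hG
  have hGc : Continuous (Function.uncurry G) := by
    rw [hG]
    unfold Function.uncurry
    fun_prop
  have h1 : Continuous fun ε : ℝ => ∫ s in x..y, G ε s :=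
    intervalIntegral.continuous_parametric_intervalIntegral_of_continuous' hGc x y
  have h2 : Continuous fun ε : ℝ => (Fp f (y + ((h y - ε : ℝ) : ℂ) * I)).im -
      (Fp f (x + ((h x - ε : ℝ) : ℂ) * I)).im :=
    (continuous_im.comp (hFc.comp (by fun_prop : Continuous fun ε : ℝ =>
      (y : ℂ) + ((h y - ε : ℝ) : ℂ) * I))).sub
    (continuous_im.comp (hFc.comp (by fun_prop : Continuous fun ε : ℝ =>
      (x : ℂ) + ((h x - ε : ℝ) : ℂ) * I)))
  have h3 : EqOn (fun ε : ℝ => ∫ s in x..y, G ε s) (fun ε : ℝ =>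
      (Fp f (y + ((h y - ε : ℝ) : ℂ) * I)).im - (Fp f (x + ((h x - ε : ℝ) : ℂ) * I)).im)
      (Ioi 0) := by
    intro ε hε
    have hε' : 0 < ε := hε
    refine intervalIntegral.integral_eq_sub_of_hasDerivAt
      (f := fun s : ℝ => (Fp f (s + ((h s - ε : ℝ) : ℂ) * I)).im) (fun s _ => ?_) ?_
    · have hmem : (s : ℂ) + ((h s - ε : ℝ) : ℂ) * I ∈ Below h := by
        show ((s : ℂ) + ((h s - ε : ℝ) : ℂ) * I).im < h ((s : ℂ) + ((h s - ε : ℝ) : ℂ) * I).re
        simp
        exact hε'
      have e1 := Fp_deriv hper hcont hhc hol hB hmem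
      have e2 : HasDerivAt (fun s : ℝ => (s : ℂ) + ((h s - ε : ℝ) : ℂ) * I) (1 + h' s * I) s := by
        have e3 : HasDerivAt (fun s : ℝ => ((h s - ε : ℝ) : ℂ)) ((h' s : ℝ) : ℂ) s :=
          ((hh s).sub_const ε).ofReal_comp
        exact (hasDerivAt_id s).ofReal_comp.add (e3.mul_const I)
      have e3 := e1.scomp s e2
      have e4 : HasDerivAt (fun s : ℝ => (Fp f (s + ((h s - ε : ℝ) : ℂ) * I)).im)
          (((1 + h' s * I) • f (s + ((h s - ε : ℝ) : ℂ) * I)).im) s :=
        Complex.imCLM.hasFDerivAt.comp_hasDerivAt s e3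
      refine e4.congr_deriv ?_
      rw [hG]
      simp only [smul_eq_mul]
      congr 2
      ring
    · exact (hGc.comp (by fun_prop : Continuous fun s : ℝ => (ε, s))).intervalIntegrable _ _
  have h4 := h3.closure h1 h2
  have h5 : (0 : ℝ) ∈ closure (Ioi (0 : ℝ)) := by
    rw [closure_Ioi]
    exact self_mem_Ici
  have h6 := h4 h5
  simp only at h6
  have h7 : ∀ s, G 0 s = 0 := by
    intro s
    rw [hG]
    simp only [sub_zero]
    exact hb s
  simp only [h7, intervalIntegral.integral_zero, sub_zero] at h6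
  linarith

end

end WW47.FS
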