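import Pool.Agent.WW47.FS.Neu

/-!
# Uniqueness for the Neumann problem below a graph, conclusion
-/

open Complex Set Filter Topology MeasureTheory

namespace WW47.FS

variable {f : ℂ → ℂ} {h : ℝ → ℝ}

lemma neumann_aux (hper : ∀ z, f (z + 2 * Real.pi) = f z) (hcont : Continuous f)
    (hhper : ∀ x, h (x + 2 * Real.pi) = h x) (hhc : Continuous h)
    (hol : ∀ z ∈ Below h, DifferentiableAt ℂ f z)
    (h0 : ∀ ε > 0, ∃ Y : ℝ, ∀ z : ℂ, z.im < Y → ‖f z‖ ≤ ε)
    {c0 : ℝ} (hc0 : 0 ≤ c0) (hb : ∀ x : ℝ, (Fp f (x + h x * I)).im = c0) :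
    ∀ z ∈ Below h, f z = 0 := by
  -- lower bound of h
  obtain ⟨C, hC⟩ : ∃ C : ℝ, ∀ x, -C < h x := by
    obtain ⟨M, hM⟩ := isCompact_Icc.exists_bound_of_continuousOn (s := Icc (0 : ℝ) (2 * Real.pi))
      hhc.continuousOn
    refine ⟨M + 1, fun x => ?_⟩
    obtain ⟨y, hy, hxy⟩ := real_reduce hhper x
    rw [hxy]
    have h1 := hM y hy
    rw [Real.norm_eq_abs] at h1
    have := neg_abs_le (h y)
    linarith
  have hBd := exp_bound hper hcont hol h0 hC
  have hFc := Fp_cont hcont hBd
  have hFper := Fp_per hper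
  have hDo := isOpen_Below hhc
  have hDc := isPreconnected_Below hC
  have hFd : ∀ z ∈ Below h, HasDerivAt (Fp f) (f z) z := fun z hz =>
    Fp_deriv hper hcont hhc hol hBd hz
  obtain ⟨B, hB0, hB1⟩ := hBd 0
  have hFb : ∀ z : ℂ, z.im ≤ 0 → ‖Fp f z‖ ≤ B * Real.exp z.im := fun z hz =>
    Fp_bound hcont hB1 hz
  have hF0 : ∀ ε > 0, ∃ Y : ℝ, ∀ z : ℂ, z.im < Y → ‖Fp f z‖ ≤ ε := by
    intro ε hε
    refine ⟨min 0 (Real.log (ε / B)), fun z hz => ?_⟩
    have h1 : z.im < 0 := lt_of_lt_of_le hz (min_le_left _ _)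
    have h2 : z.im < Real.log (ε / B) := lt_of_lt_of_le hz (min_le_right _ _)
    refine (hFb z h1.le).trans ?_
    have h3 : Real.exp z.im ≤ ε / B := by
      calc Real.exp z.im ≤ Real.exp (Real.log (ε / B)) := Real.exp_le_exp.2 h2.le
        _ = ε / B := Real.exp_log (by positivity)
    calc B * Real.exp z.im ≤ B * (ε / B) := by gcongr
      _ = ε := by field_simp
  set g : ℂ → ℂ := fun z => exp (I * Fp f z) with hg
  have hgn : ∀ z, ‖g z‖ = Real.exp (-(Fp f z).im) := by
    intro z
    rw [hg]
    simp only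
    rw [norm_exp]
    congr 1
    simp
  have hgc : Continuous g := by
    rw [hg]
    exact Complex.continuous_exp.comp (continuous_const.mul hFc)
  -- Im F ≥ 0 in the domain
  have hpos : ∀ z ∈ Below h, 0 ≤ (Fp f z).im := by
    intro z1 hz1
    by_contra hneg
    push Not at hneg
    have hg1 : 1 < ‖g z1‖ := by
      rw [hgn]
      exact Real.one_lt_exp_iff.2 (by linarith)
    -- deep: smaller
    obtain ⟨Y, hY⟩ : ∃ Y : ℝ, ∀ z : ℂ, z.im < Y → ‖g z‖ < ‖g z1‖ := by
      obtain ⟨Y, hY⟩ := hF0 (-(Fp f z1).im / 2) (by linarith)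
      refine ⟨Y, fun z hz => ?_⟩
      rw [hgn, hgn]
      refine Real.exp_lt_exp.2 ?_
      have h1 := (Complex.abs_im_le_norm (Fp f z)).trans (hY z hz)
      have h2 := neg_abs_le (Fp f z).im
      linarith
    -- compact set
    obtain ⟨M, hM⟩ := isCompact_Icc.exists_bound_of_continuousOn (s := Icc (0 : ℝ) (2 * Real.pi))
      hhc.continuousOn
    set K : Set ℂ := (Icc (0 : ℝ) (2 * Real.pi) ×ℂ Icc Y M) ∩ {z | z.im ≤ h z.re} with hK
    have hKc : IsCompact K := by
      refine (isCompact_Icc.reProdIm isCompact_Icc).inter_right ?_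
      exact isClosed_le continuous_im (hhc.comp continuous_re)
    have hred : ∀ z ∈ Below h, Y ≤ z.im → ∃ w ∈ K, g z = g w := by
      intro z hz hzY
      obtain ⟨n, w, hzw, him, hw0, hw1⟩ := exists_reduced z
      have h1 : h z.re = h w.re := by
        have h2 : z.re = w.re + n * (2 * Real.pi) := by
          rw [hzw]
          simp
        rw [h2]
        exact (Function.Periodic.int_mul (f := h) (c := 2 * Real.pi) hhper n) w.re
      have h2 : w.im < h w.re := by
        rw [him, ← h1]
        exact hz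
      refine ⟨w, ⟨mem_reProdIm.2 ⟨⟨hw0, hw1⟩, ⟨by rw [him]; exact hzY, ?_⟩⟩, h2.le⟩, ?_⟩
      · have h3 := hM w.re ⟨hw0, hw1⟩
        rw [Real.norm_eq_abs] at h3
        have := le_abs_self (h w.re)
        linarith
      · rw [hg]
        simp only
        congr 2
        rw [hzw]
        exact per_int hFper n w
    have hz1Y : Y ≤ z1.im := by
      by_contra hlt
      push Not at hlt
      exact lt_irrefl _ (hY z1 hlt)
    obtain ⟨w1, hw1, hgw1⟩ := hred z1 hz1 hz1Y
    obtain ⟨z0, hz0, hmax⟩ := hKc.exists_isMaxOn ⟨w1, hw1⟩ (hgc.norm.continuousOn)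
    have hz0big : ‖g z1‖ ≤ ‖g z0‖ := by
      rw [hgw1]
      exact hmax hw1
    have hz0D : z0 ∈ Below h := by
      have h1 : z0.im ≤ h z0.re := hz0.2
      rcases h1.lt_or_eq with h2 | h2
      · exact h2
      · exfalso
        have h3 : z0 = (z0.re : ℂ) + (h z0.re : ℂ) * I := by
          rw [← h2]
          exact (re_add_im z0).symm
        have h4 : ‖g z0‖ = Real.exp (-c0) := by
          rw [hgn, h3, hb]
        have h5 : Real.exp (-c0) ≤ 1 := Real.exp_le_one_iff.2 (by linarith)
        linarith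
    have hmaxD : IsMaxOn (norm ∘ g) (Below h) z0 := by
      intro z hz
      show ‖g z‖ ≤ ‖g z0‖
      by_cases hzY : Y ≤ z.im
      · obtain ⟨w, hw, hgw⟩ := hred z hz hzY
        rw [hgw]
        exact hmax hw
      · exact (hY z (not_le.1 hzY)).le.trans hz0big
    have hgd : DifferentiableOn ℂ g (Below h) := fun z hz =>
      (((hFd z hz).differentiableAt.const_mul I).cexp).differentiableWithinAt
    have hconst := norm_eqOn_of_isPreconnected_of_isMaxOn hDc hDo hgd hz0D hmaxD
    set zd : ℂ := ((min Y (-C) - 1 : ℝ) : ℂ) * I with hzd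
    have him : zd.im = min Y (-C) - 1 := by simp [hzd]
    have hzdD : zd ∈ Below h := by
      show zd.im < h zd.re
      rw [him]
      have := min_le_right Y (-C)
      have := hC zd.re
      linarith
    have h1 := hconst hzdD
    have h2 : ‖g zd‖ = ‖g z0‖ := h1
    have h3 := hY zd (by rw [him]; have := min_le_left Y (-C); linarith)
    linarith
  -- deep in the fluid Im F = 0
  have hzero : ∀ z : ℂ, z.im ≤ -C - 2 → (Fp f z).im = 0 := by
    intro z hz
    have hzD : z ∈ Below h := by
      show z.im < h z.re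
      have := hC z.re
      linarith
    refine le_antisymm ?_ (hpos z hzD)
    by_contra hgt
    push Not at hgt
    have hexp : ∀ n : ℕ, (1 : ℝ) / 2 ≤ Real.exp (-(n * (Fp f z).im)) := by
      intro n
      have hdec := decay (f := fun z => exp (I * n * Fp f z) - 1) (C := C) (B := 2)
        (fun w => by rw [hFper]) ?_ ?_ ?_ ?_ z (by linarith)
      · have h1 : 2 * Real.exp (z.im + C) ≤ 1 / 2 := by
          have h2 : Real.exp (z.im + C) ≤ Real.exp (-2) := Real.exp_le_exp.2 (by linarith)
          have h3 : (4 : ℝ) ≤ Real.exp 2 := by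
            have h4 := Real.add_one_le_exp (1 : ℝ)
            have h5 : Real.exp 2 = Real.exp 1 * Real.exp 1 := by
              rw [← Real.exp_add]; norm_num
            rw [h5]
            nlinarith
          have h4 : Real.exp (-2) ≤ 1 / 4 := by
            rw [Real.exp_neg, inv_eq_one_div]
            exact one_div_le_one_div_of_le (by norm_num) h3
          linarith
        have h2 : ‖exp (I * n * Fp f z)‖ = Real.exp (-(n * (Fp f z).im)) := by
          rw [norm_exp]
          congr 1
          simp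
        rw [← h2]
        have h3 : ‖(1 : ℂ)‖ - ‖exp (I * n * Fp f z)‖ ≤ ‖(1 : ℂ) - exp (I * n * Fp f z)‖ :=
          norm_sub_norm_le _ _
        rw [norm_one, norm_sub_rev] at h3
        linarith
      · intro w hw
        have hwD : w ∈ Below h := lt_trans hw (hC w.re)
        exact ((((hFd w hwD).differentiableAt.const_mul (I * n)).cexp).sub_const 1).differentiableWithinAt
      · exact ((Complex.continuous_exp.comp (continuous_const.mul hFc)).sub
          continuous_const).continuousOn
      · intro ε hε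
        have hc : ContinuousAt (fun w : ℂ => exp (I * n * w) - 1) 0 := by fun_prop
        obtain ⟨δ, hδ, h2⟩ := Metric.continuousAt_iff.1 hc ε hε
        obtain ⟨Y, hY⟩ := hF0 (δ / 2) (by positivity)
        refine ⟨Y, fun w hw => ?_⟩
        have h3 := h2 (x := Fp f w) (by rw [dist_zero_right]; linarith [hY w hw])
        rw [mul_zero, exp_zero, sub_self, dist_zero_right] at h3
        exact h3.le
      · intro x
        have h1 : ((x : ℂ) - (C : ℂ) * I).im = -C := by simp
        -- closure: Im F ≥ 0 on the line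
        have h2 : 0 ≤ (Fp f (x - C * I)).im := by
          refine hpos _ ?_
          show ((x : ℂ) - (C : ℂ) * I).im < h ((x : ℂ) - (C : ℂ) * I).re
          rw [h1]
          exact hC _
        have h3 : ‖exp (I * n * Fp f (x - C * I))‖ ≤ 1 := by
          rw [norm_exp]
          have h4 : (I * (n : ℂ) * Fp f (x - C * I)).re = -(n * (Fp f (x - C * I)).im) := by simp
          rw [h4, Real.exp_le_one_iff]
          have : 0 ≤ (n : ℝ) * (Fp f (x - C * I)).im := by positivity
          linarith
        calc ‖exp (I * n * Fp f (x - C * I)) - 1‖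
            ≤ ‖exp (I * n * Fp f (x - C * I))‖ + ‖(1 : ℂ)‖ := norm_sub_le _ _
          _ ≤ 2 := by rw [norm_one]; linarith
    obtain ⟨n, hn⟩ := exists_nat_gt (2 / (Fp f z).im)
    rw [div_lt_iff₀ hgt] at hn
    have h1 := hexp n
    have h2 : Real.exp (-(n * (Fp f z).im)) ≤ Real.exp (-2) := Real.exp_le_exp.2 (by linarith)
    have h3 : Real.exp (-2) < 1 / 2 := by
      rw [Real.exp_neg, inv_eq_one_div]
      refine one_div_lt_one_div_of_lt (by norm_num) ?_
      have := Real.add_one_le_exp (2 : ℝ)
      linarith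
    linarith
  -- F vanishes deep in the fluid
  have hFzero : ∀ z : ℂ, z.im < -C - 2 → Fp f z = 0 := by
    refine zero_of_real_bdry hFper ?_ hFc.continuousOn hF0 ?_
    · intro z hz
      have hz' : z.im < -C - 2 := hz
      have hzD : z ∈ Below h := by
        show z.im < h z.re
        have := hC z.re
        linarith
      exact (hFd z hzD).differentiableAt.differentiableWithinAt
    · intro x
      refine hzero _ ?_
      simp
  -- hence f vanishes
  set zd : ℂ := ((-C - 3 : ℝ) : ℂ) * I with hzd
  have him : zd.im = -C - 3 := by simp [hzd]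
  have hzdD : zd ∈ Below h := by
    show zd.im < h zd.re
    rw [him]
    have := hC zd.re
    linarith
  have hev : f =ᶠ[𝓝 zd] 0 := by
    have hop : IsOpen {z : ℂ | z.im < -C - 2} := isOpen_lt continuous_im continuous_const
    filter_upwards [hop.mem_nhds (show zd ∈ {z : ℂ | z.im < -C - 2} by
      show zd.im < -C - 2
      rw [him]; linarith)] with w hw
    have hw' : w.im < -C - 2 := hw
    have hwD : w ∈ Below h := by
      show w.im < h w.re
      have := hC w.re
      linarith
    have h1 := hFd w hwD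
    have h2 : HasDerivAt (Fp f) 0 w := by
      have h3 : Fp f =ᶠ[𝓝 w] fun _ => 0 := by
        filter_upwards [hop.mem_nhds hw] with v hv using hFzero v hv
      exact (hasDerivAt_const w (0 : ℂ)).congr_of_eventuallyEq h3
    exact h1.unique h2
  have hdo : DifferentiableOn ℂ f (Below h) := fun z hz => (hol z hz).differentiableWithinAt
  intro z hz
  exact (hdo.analyticOnNhd hDo).eqOn_zero_of_preconnected_of_eventuallyEq_zero hDc hzdD hev hz

/-- **Uniqueness for the Neumann problem** below a periodic graph. -/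
theorem neumann (hper : ∀ z, f (z + 2 * Real.pi) = f z) (hcont : Continuous f)
    (hhper : ∀ x, h (x + 2 * Real.pi) = h x)
    {h' : ℝ → ℝ} (hh : ∀ x, HasDerivAt h (h' x) x) (hh' : Continuous h')
    (hol : ∀ z ∈ Below h, DifferentiableAt ℂ f z)
    (h0 : ∀ ε > 0, ∃ Y : ℝ, ∀ z : ℂ, z.im < Y → ‖f z‖ ≤ ε)
    (hb : ∀ x : ℝ, ((1 + I * h' x) * f (x + h x * I)).im = 0) :
    ∀ z ∈ Below h, f z = 0 := by
  have hhc : Continuous h := continuous_iff_continuousAt.2 fun x => (hh x).continuousAt
  obtain ⟨C, hC⟩ : ∃ C : ℝ, ∀ x, -C < h x := by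
    obtain ⟨M, hM⟩ := isCompact_Icc.exists_bound_of_continuousOn (s := Icc (0 : ℝ) (2 * Real.pi))
      hhc.continuousOn
    refine ⟨M + 1, fun x => ?_⟩
    obtain ⟨y, hy, hxy⟩ := real_reduce hhper x
    rw [hxy]
    have h1 := hM y hy
    rw [Real.norm_eq_abs] at h1
    have := neg_abs_le (h y)
    linarith
  have hBd := exp_bound hper hcont hol h0 hC
  have hconst := Fp_bdry hper hcont hh hh' hol hBd hb
  rcases le_total 0 (Fp f ((0 : ℝ) + h 0 * I)).im with hc | hc
  · exact neumann_aux hper hcont hhper hhc hol h0 hc (fun x => hconst x 0)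
  · have hneg : ∀ z, Fp (fun z => -f z) z = -Fp f z := by
      intro z
      unfold Fp
      rw [integral_neg, mul_neg]
    have h1 := neumann_aux (f := fun z => -f z) (c0 := -(Fp f ((0 : ℝ) + h 0 * I)).im)
      (fun z => by rw [hper]) hcont.neg hhper hhc (fun z hz => (hol z hz).neg)
      (fun ε hε => by
        obtain ⟨Y, hY⟩ := h0 ε hε
        exact ⟨Y, fun z hz => by rw [norm_neg]; exact hY z hz⟩)
      (by linarith) (fun x => by rw [hneg, neg_im, hconst x 0])
    intro z hz
    have h2 := h1 z hz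
    simpa using h2

end WW47.FS
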