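import Pool.Agent.WW47.FS.Neu2
import Pool.Agent.WW47.FS.Exp2
import Pool.Agent.WW47.FS.Dom

/-!
# Regularity facts, and the velocity as an exponential sum in time
-/

open Complex Set Filter Topology

namespace WW47.FS

variable {g κ γ a b : ℝ} {η ψ : ℝ → ℝ → ℝ} {Φ : ℝ → ℂ → ℝ} {q : ℝ → ℝ → ℝ} {p : ℝ → ℝ}

lemma eta_space (hw : WaterWave g κ γ a b η ψ Φ q p) {t : ℝ} (ht : t ∈ Ioo a b) :
    ContDiff ℝ 2 (η t) := by
  rw [← contDiffOn_univ]
  exact hw.regη.comp (g := fun P : ℝ × ℝ => η P.1 P.2) (f := fun x : ℝ => (t, x))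
    (contDiffOn_const.prodMk contDiffOn_id) (fun s _ => ⟨ht, mem_univ _⟩)

lemma etax_at (hw : WaterWave g κ γ a b η ψ Φ q p) {t : ℝ} (ht : t ∈ Ioo a b) (x : ℝ) :
    HasDerivAt (η t) (etax η t x) x :=
  ((eta_space hw ht).differentiable (by norm_num) x).hasDerivAt

lemma etax_cont (hw : WaterWave g κ γ a b η ψ Φ q p) {t : ℝ} (ht : t ∈ Ioo a b) :
    Continuous (etax η t) :=
  (eta_space hw ht).continuous_deriv (by norm_num)

lemma etat_at (hw : WaterWave g κ γ a b η ψ Φ q p) {t : ℝ} (ht : t ∈ Ioo a b) (x : ℝ) :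
    HasDerivAt (fun s => η s x) (deriv (fun s => η s x) t) t :=
  (((eta_time hw.regη x).contDiffAt (isOpen_Ioo.mem_nhds ht)).differentiableAt
    (by norm_num)).hasDerivAt

lemma eta_lower (hw : WaterWave g κ γ a b η ψ Φ q p) {t : ℝ} (ht : t ∈ Ioo a b) :
    ∃ C : ℝ, ∀ x, -C < η t x := by
  obtain ⟨M, hM⟩ := isCompact_Icc.exists_bound_of_continuousOn (s := Icc (0 : ℝ) (2 * Real.pi))
    (eta_cont hw ht).continuousOn
  refine ⟨M + 1, fun x => ?_⟩
  obtain ⟨y, hy, hxy⟩ := real_reduce (hw.perη t ht) x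
  rw [hxy]
  have h1 := hM y hy
  rw [Real.norm_eq_abs] at h1
  have := neg_abs_le (η t y)
  linarith

lemma Wt_bound (hw : WaterWave g κ γ a b η ψ Φ q p) {t : ℝ} (ht : t ∈ Ioo a b) (c' : ℝ) :
    ∃ B, 0 < B ∧ ∀ z : ℂ, z.im ≤ c' → ‖Wt Φ (t, z)‖ ≤ B * Real.exp z.im := by
  obtain ⟨C, hC⟩ := eta_lower hw ht
  exact exp_bound (f := fun z => Wt Φ (t, z)) (h := η t) (Wt_per hw ht) (Wt_cont hw.regΦ ht)
    (fun z hz => Wt_hol hw ht hz) (Wt_decay0 hw ht) hC c'

/-- the region below finitely many surfaces is connected -/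
lemma isPreconnected_many {m : ℕ} {G : ℕ → ℝ → ℝ} (hG : ∀ k ≤ m, ∃ C : ℝ, ∀ x, -C < G k x) :
    IsPreconnected {z : ℂ | ∀ k ≤ m, z.im < G k z.re} := by
  classical
  choose! C hC using hG
  have hne : (Finset.range (m + 1)).Nonempty := ⟨0, by simp⟩
  have h1 : {z : ℂ | ∀ k ≤ m, z.im < G k z.re} =
      Below (fun x => (Finset.range (m + 1)).inf' hne (fun k => G k x)) := by
    ext z
    show (∀ k ≤ m, z.im < G k z.re) ↔ z.im < (Finset.range (m + 1)).inf' hne (fun k => G k z.re)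
    rw [Finset.lt_inf'_iff]
    constructor
    · intro h k hk
      exact h k (by have := Finset.mem_range.1 hk; omega)
    · intro h k hk
      exact h k (Finset.mem_range.2 (by omega))
  rw [h1]
  refine isPreconnected_Below (C := ∑ k ∈ Finset.range (m + 1), |C k|) fun x => ?_
  rw [Finset.lt_inf'_iff]
  intro k hk
  have h2 : |C k| ≤ ∑ k ∈ Finset.range (m + 1), |C k| :=
    Finset.single_le_sum (f := fun k => |C k|) (fun k _ => abs_nonneg _) hk
  have h3 := hC k (by have := Finset.mem_range.1 hk; omega) x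
  have := le_abs_self (C k)
  linarith

/-- velocity at deep points: exponential sum in time -/
def DeepSpec (Λ : Finset ℝ) (a b : ℝ) (Φ : ℝ → ℂ → ℝ) : Prop :=
  ∃ Y : ℝ, ∀ z : ℂ, z.im < Y → ∃ A : ℝ → ℂ, ∀ t ∈ Ioo a b, Wt Φ (t, z) = es Λ A t

/-- combination of the velocities at the times `τ k` -/
noncomputable def Ul (Φ : ℝ → ℂ → ℝ) (m : ℕ) (τ : ℕ → ℝ) (w : ℝ → ℕ → ℂ) (l : ℝ) (z : ℂ) : ℂ :=
  ∑ k ∈ Finset.range m, w l k * Wt Φ (τ k, z)

section

variable {Λ : Finset ℝ} {m : ℕ} {τ : ℕ → ℝ} {w : ℝ → ℕ → ℂ}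

lemma Ul_cont (hw : WaterWave g κ γ a b η ψ Φ q p) (hτ : ∀ k < m, τ k ∈ Ioo a b) (l : ℝ) :
    Continuous (Ul Φ m τ w l) := by
  unfold Ul
  refine continuous_finsetSum _ fun k hk => continuous_const.mul ?_
  exact Wt_cont hw.regΦ (hτ k (Finset.mem_range.1 hk))

lemma Ul_hol (hw : WaterWave g κ γ a b η ψ Φ q p) (hτ : ∀ k < m, τ k ∈ Ioo a b) (l : ℝ) {z : ℂ}
    (hz : ∀ k < m, z.im < η (τ k) z.re) : DifferentiableAt ℂ (Ul Φ m τ w l) z := by
  unfold Ul
  refine DifferentiableAt.fun_sum fun k hk => ?_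
  have hk' := Finset.mem_range.1 hk
  exact (Wt_hol hw (hτ k hk') (hz k hk')).const_mul _

lemma Ul_bound (hw : WaterWave g κ γ a b η ψ Φ q p) (hτ : ∀ k < m, τ k ∈ Ioo a b) (c' : ℝ) :
    ∃ B, 0 < B ∧ ∀ l ∈ Λ, ∀ z : ℂ, z.im ≤ c' → ‖Ul Φ m τ w l z‖ ≤ B * Real.exp z.im := by
  have h1 : ∀ k < m, ∃ B, 0 < B ∧ ∀ z : ℂ, z.im ≤ c' → ‖Wt Φ (τ k, z)‖ ≤ B * Real.exp z.im :=
    fun k hk => Wt_bound hw (hτ k hk) c'
  choose! B hB0 hB using h1
  refine ⟨1 + ∑ l ∈ Λ, ∑ k ∈ Finset.range m, ‖w l k‖ * |B k|, by positivity, fun l hl z hz => ?_⟩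
  have h2 : ‖Ul Φ m τ w l z‖ ≤ (∑ k ∈ Finset.range m, ‖w l k‖ * |B k|) * Real.exp z.im := by
    unfold Ul
    refine (norm_sum_le _ _).trans ?_
    rw [Finset.sum_mul]
    refine Finset.sum_le_sum fun k hk => ?_
    have hk' := Finset.mem_range.1 hk
    rw [norm_mul, mul_assoc]
    gcongr
    refine (hB k hk' z hz).trans ?_
    gcongr
    exact le_abs_self _
  refine h2.trans ?_
  gcongr
  have h3 : (∑ k ∈ Finset.range m, ‖w l k‖ * |B k|) ≤
      ∑ l ∈ Λ, ∑ k ∈ Finset.range m, ‖w l k‖ * |B k| :=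
    Finset.single_le_sum (f := fun l => ∑ k ∈ Finset.range m, ‖w l k‖ * |B k|)
      (fun l _ => by positivity) hl
  linarith

/-- The velocity at any time, in terms of the velocities at the times `τ k`. -/
lemma vel_interp (hw : WaterWave g κ γ a b η ψ Φ q p) (hdeep : DeepSpec Λ a b Φ)
    (hτ : ∀ k < m, τ k ∈ Ioo a b)
    (hext : ∀ c : ℝ → ℂ, ∀ l ∈ Λ, c l = ∑ k ∈ Finset.range m, w l k * es Λ c (τ k))
    {t : ℝ} (ht : t ∈ Ioo a b) {z : ℂ} (hz : z.im < η t z.re) (hzk : ∀ k < m, z.im < η (τ k) z.re) :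
    Wt Φ (t, z) = es Λ (fun l => Ul Φ m τ w l z) t := by
  classical
  obtain ⟨Y, hY⟩ := hdeep
  set G : ℕ → ℝ → ℝ := fun k => if k < m then η (τ k) else η t with hG
  set D : Set ℂ := {z : ℂ | ∀ k ≤ m, z.im < G k z.re} with hD
  have hGk : ∀ k < m, G k = η (τ k) := fun k hk => by rw [hG]; simp only; rw [if_pos hk]
  have hGm : G m = η t := by rw [hG]; simp only; rw [if_neg (lt_irrefl m)]
  have hDc : IsPreconnected D := by
    refine isPreconnected_many fun k hk => ?_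
    rcases hk.lt_or_eq with h | h
    · rw [hGk k h]
      exact eta_lower hw (hτ k h)
    · rw [h, hGm]
      exact eta_lower hw ht
  have hmem : ∀ v : ℂ, v ∈ D ↔ v.im < η t v.re ∧ ∀ k < m, v.im < η (τ k) v.re := by
    intro v
    constructor
    · intro hv
      refine ⟨by rw [← hGm]; exact hv m le_rfl, fun k hk => by rw [← hGk k hk]; exact hv k hk.le⟩
    · rintro ⟨h1, h2⟩ k hk
      rcases hk.lt_or_eq with h | h
      · rw [hGk k h]; exact h2 k h
      · rw [h, hGm]; exact h1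
  have hDo : IsOpen D := by
    have : D = {v : ℂ | v.im < η t v.re} ∩ ⋂ k ∈ Finset.range m, {v : ℂ | v.im < η (τ k) v.re} := by
      ext v
      rw [hmem]
      simp
    rw [this]
    refine (isOpen_fluid hw ht).inter (isOpen_biInter_finset fun k hk => ?_)
    exact isOpen_fluid hw (hτ k (Finset.mem_range.1 hk))
  -- holomorphic difference
  set F : ℂ → ℂ := fun v => Wt Φ (t, v) - es Λ (fun l => Ul Φ m τ w l v) t with hF
  have hFd : DifferentiableOn ℂ F D := by
    intro v hv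
    rw [hmem] at hv
    refine DifferentiableAt.differentiableWithinAt ?_
    refine (Wt_hol hw ht hv.1).sub ?_
    unfold es
    refine DifferentiableAt.fun_sum fun l _ => ?_
    exact (Ul_hol hw hτ l hv.2).mul_const _
  -- deep points
  obtain ⟨Cs, hCs⟩ : ∃ Cs : ℝ, ∀ v : ℂ, v.im < -Cs → v ∈ D := by
    have h1 : ∀ k < m, ∃ C : ℝ, ∀ x, -C < η (τ k) x := fun k hk => eta_lower hw (hτ k hk)
    choose! C hC using h1
    obtain ⟨C', hC'⟩ := eta_lower hw ht
    refine ⟨|C'| + ∑ k ∈ Finset.range m, |C k|, fun v hv => ?_⟩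
    rw [hmem]
    have h0 : 0 ≤ ∑ k ∈ Finset.range m, |C k| := Finset.sum_nonneg fun _ _ => abs_nonneg _
    constructor
    · have h2 := hC' v.re
      have h3 := le_abs_self C'
      linarith
    · intro k hk
      have h2 := hC k hk v.re
      have h3 := le_abs_self (C k)
      have h4 : |C k| ≤ ∑ k ∈ Finset.range m, |C k| :=
        Finset.single_le_sum (f := fun k => |C k|) (fun k _ => abs_nonneg _)
          (Finset.mem_range.2 hk)
      have h5 := abs_nonneg C'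
      linarith
  set zd : ℂ := ((min Y (-Cs) - 1 : ℝ) : ℂ) * I with hzd
  have him : zd.im = min Y (-Cs) - 1 := by simp [hzd]
  have hzdD : zd ∈ D := hCs _ (by rw [him]; have := min_le_right Y (-Cs); linarith)
  have hev : F =ᶠ[𝓝 zd] 0 := by
    have hop : IsOpen {v : ℂ | v.im < Y} := isOpen_lt continuous_im continuous_const
    filter_upwards [hop.mem_nhds (show zd ∈ {v : ℂ | v.im < Y} by
      show zd.im < Y
      rw [him]; have := min_le_left Y (-Cs); linarith)] with v hv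
    obtain ⟨A, hA⟩ := hY v hv
    show Wt Φ (t, v) - es Λ (fun l => Ul Φ m τ w l v) t = 0
    rw [hA t ht, sub_eq_zero]
    unfold es
    refine Finset.sum_congr rfl fun l hl => ?_
    congr 1
    rw [hext A l hl]
    unfold Ul
    refine Finset.sum_congr rfl fun k hk => ?_
    rw [hA (τ k) (hτ k (Finset.mem_range.1 hk))]
  have hzD : z ∈ D := (hmem z).2 ⟨hz, hzk⟩
  have := (hFd.analyticOnNhd hDo).eqOn_zero_of_preconnected_of_eventuallyEq_zero hDc hzdD hev hzD
  exact sub_eq_zero.1 this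

/-- The same at a surface point below the surfaces at the times `τ k`. -/
lemma vel_surf (hw : WaterWave g κ γ a b η ψ Φ q p) (hdeep : DeepSpec Λ a b Φ)
    (hτ : ∀ k < m, τ k ∈ Ioo a b)
    (hext : ∀ c : ℝ → ℂ, ∀ l ∈ Λ, c l = ∑ k ∈ Finset.range m, w l k * es Λ c (τ k))
    {t : ℝ} (ht : t ∈ Ioo a b) {x : ℝ} (hzk : ∀ k < m, η t x < η (τ k) x) :
    Wt Φ (t, surf η t x) = es Λ (fun l => Ul Φ m τ w l (surf η t x)) t := by
  have him : ∀ s : ℝ, (surf η t x - s * I).im = η t x - s := by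
    intro s
    unfold surf
    simp
  have hre : ∀ s : ℝ, (surf η t x - s * I).re = x := by
    intro s
    unfold surf
    simp
  have h1 : Tendsto (fun s : ℝ => surf η t x - s * I) (𝓝[>] 0) (𝓝 (surf η t x)) := by
    have h2 : Continuous fun s : ℝ => surf η t x - s * I := by fun_prop
    have h3 := h2.tendsto 0
    simp only [ofReal_zero, zero_mul, sub_zero] at h3
    exact h3.mono_left nhdsWithin_le_nhds
  have hc1 := ((Wt_cont hw.regΦ ht).tendsto (surf η t x)).comp h1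
  have hcont : Continuous fun z : ℂ => es Λ (fun l => Ul Φ m τ w l z) t := by
    unfold es
    exact continuous_finsetSum _ fun l _ => (Ul_cont hw hτ l).mul continuous_const
  have hc2 := (hcont.tendsto (surf η t x)).comp h1
  refine tendsto_nhds_unique (hc1.congr' ?_) hc2
  filter_upwards [self_mem_nhdsWithin] with s hs
  have hs' : 0 < s := hs
  refine vel_interp hw hdeep hτ hext ht ?_ ?_
  · rw [him, hre]; linarith
  · intro k hk
    rw [him, hre]
    have := hzk k hk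
    linarith

end

end WW47.FS
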